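import Mathlib

/-! Averages over finite types and indicator functions. -/

namespace Pool.Agent.Lib.MP_8d7d3d_lc

open Finset

/-- average of a real function over a finite type -/
noncomputable def av {ι : Type} [Fintype ι] (f : ι → ℝ) : ℝ := (∑ i, f i) / Fintype.card ι

open Classical in
/-- indicator of a proposition -/
noncomputable def ind (p : Prop) : ℝ := if p then 1 else 0

lemma ind_pos {p : Prop} (h : p) : ind p = 1 := by simp [ind, h]
lemma ind_neg {p : Prop} (h : ¬ p) : ind p = 0 := by simp [ind, h]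
lemma ind_nonneg (p : Prop) : 0 ≤ ind p := by unfold ind; split_ifs <;> norm_num
lemma ind_le_one (p : Prop) : ind p ≤ 1 := by unfold ind; split_ifs <;> norm_num
lemma ind_mono {p q : Prop} (h : p → q) : ind p ≤ ind q := by
  by_cases hp : p
  · rw [ind_pos hp, ind_pos (h hp)]
  · rw [ind_neg hp]; exact ind_nonneg q
lemma ind_congr {p q : Prop} (h : p ↔ q) : ind p = ind q := by rw [propext h]
lemma ind_and (p q : Prop) : ind (p ∧ q) = ind p * ind q := by
  by_cases hp : p <;> by_cases hq : q <;> simp [ind, hp, hq]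
lemma ind_not (p : Prop) : ind (¬ p) = 1 - ind p := by
  by_cases hp : p <;> simp [ind, hp]
lemma ind_sq (p : Prop) : ind p ^ 2 = ind p := by
  by_cases hp : p <;> simp [ind, hp]
lemma of_ind_ne {p : Prop} (h : ind p ≠ 0) : p := by
  by_contra hp; exact h (ind_neg hp)
lemma ind_or_le (p q : Prop) : ind (p ∨ q) ≤ ind p + ind q := by
  by_cases hp : p <;> by_cases hq : q <;> simp [ind, hp, hq]

section
variable {ι κ : Type} [Fintype ι] [Fintype κ]

lemma av_le_av {f g : ι → ℝ} (h : ∀ i, f i ≤ g i) : av f ≤ av g :=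
  div_le_div_of_nonneg_right (Finset.sum_le_sum fun i _ => h i) (Nat.cast_nonneg _)

lemma av_nonneg {f : ι → ℝ} (h : ∀ i, 0 ≤ f i) : 0 ≤ av f :=
  div_nonneg (Finset.sum_nonneg fun i _ => h i) (Nat.cast_nonneg _)

lemma av_congr {f g : ι → ℝ} (h : ∀ i, f i = g i) : av f = av g := by
  rw [funext h]

lemma av_const [Nonempty ι] (c : ℝ) : av (fun _ : ι => c) = c := by
  simp [av]

lemma av_zero : av (fun _ : ι => (0 : ℝ)) = 0 := by simp [av]

lemma av_add (f g : ι → ℝ) : av (fun i => f i + g i) = av f + av g := by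
  simp [av, Finset.sum_add_distrib, add_div]

lemma av_sub (f g : ι → ℝ) : av (fun i => f i - g i) = av f - av g := by
  simp [av, Finset.sum_sub_distrib, sub_div]

lemma av_mul_left (c : ℝ) (f : ι → ℝ) : av (fun i => c * f i) = c * av f := by
  simp [av, ← Finset.mul_sum, mul_div_assoc]

lemma av_mul_right (c : ℝ) (f : ι → ℝ) : av (fun i => f i * c) = av f * c := by
  simp [av, ← Finset.sum_mul]; ring

lemma av_div (c : ℝ) (f : ι → ℝ) : av (fun i => f i / c) = av f / c := by
  simp only [div_eq_mul_inv]; exact av_mul_right _ _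

lemma av_le [Nonempty ι] {f : ι → ℝ} {c : ℝ} (h : ∀ i, f i ≤ c) : av f ≤ c := by
  have := av_le_av (g := fun _ => c) h
  rwa [av_const] at this

lemma le_av [Nonempty ι] {f : ι → ℝ} {c : ℝ} (h : ∀ i, c ≤ f i) : c ≤ av f := by
  have := av_le_av (f := fun _ => c) h
  rwa [av_const] at this

lemma av_comm (f : ι → κ → ℝ) :
    av (fun i => av (fun j => f i j)) = av (fun j => av (fun i => f i j)) := by
  simp only [av, ← Finset.sum_div]
  rw [Finset.sum_comm]; ring

lemma av_prod (f : ι × κ → ℝ) : av f = av (fun i => av (fun j => f (i, j))) := by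
  simp only [av, ← Finset.sum_div, Fintype.card_prod, Fintype.sum_prod_type]
  push_cast; ring

lemma av_equiv (e : ι ≃ κ) (f : κ → ℝ) : av (fun i => f (e i)) = av f := by
  simp only [av, Fintype.card_congr e, Equiv.sum_comp]

lemma av_sum {α : Type} (s : Finset α) (f : α → ι → ℝ) :
    av (fun i => ∑ a ∈ s, f a i) = ∑ a ∈ s, av (f a) := by
  simp only [av, ← Finset.sum_div]
  rw [Finset.sum_comm]

lemma exists_pos_of_av_pos {f : ι → ℝ} (h : 0 < av f) : ∃ i, 0 < f i := by
  by_contra hc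
  push Not at hc
  have : av f ≤ av (fun _ : ι => (0 : ℝ)) := av_le_av hc
  rw [av_zero] at this
  linarith

lemma exists_lt_of_av_lt {f g : ι → ℝ} (h : av f < av g) : ∃ i, f i < g i := by
  by_contra hc
  push Not at hc
  exact absurd (av_le_av hc) (not_le.mpr h)

lemma av_mul_av (f : ι → ℝ) (g : κ → ℝ) :
    av f * av g = av (fun i => av (fun j => f i * g j)) := by
  rw [← av_mul_right]
  exact av_congr fun i => (av_mul_left _ _).symm

lemma av_cs (f g : ι → ℝ) :
    av (fun i => f i * g i) ^ 2 ≤ av (fun i => f i ^ 2) * av (fun i => g i ^ 2) := by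
  simp only [av]
  rw [div_pow, div_mul_div_comm, sq (Fintype.card ι : ℝ)]
  exact div_le_div_of_nonneg_right (Finset.sum_mul_sq_le_sq_mul_sq _ _ _) (by positivity)

lemma av_ind_le_one [Nonempty ι] (p : ι → Prop) : av (fun i => ind (p i)) ≤ 1 :=
  av_le fun _ => ind_le_one _

lemma av_ind_nonneg (p : ι → Prop) : 0 ≤ av (fun i => ind (p i)) :=
  av_nonneg fun _ => ind_nonneg _

lemma av_ind_eq_ncard (p : ι → Prop) :
    av (fun i => ind (p i)) = (Set.ncard {i | p i} : ℝ) / Fintype.card ι := by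
  classical
  unfold av
  congr 1
  have : {i | p i} = ((Finset.univ.filter p : Finset ι) : Set ι) := by ext; simp
  rw [this, Set.ncard_coe_finset, Finset.card_filter]
  push_cast
  refine Finset.sum_congr rfl fun i _ => ?_
  unfold ind
  split_ifs <;> rfl

end

attribute [irreducible] av ind

/-- restriction of a uniformly random function to a subset of coordinates is uniform -/
lemma av_comp_inj {ι κ V : Type} [Fintype ι] [Fintype κ] [Fintype V] [DecidableEq ι]
    [DecidableEq κ] [Nonempty V] (e : κ → ι) (he : Function.Injective e) (f : (κ → V) → ℝ) :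
    av (fun x : ι → V => f (fun j => x (e j))) = av f := by
  classical
  let φ : (ι → V) ≃ ((Set.range e) → V) × ({i // ¬ i ∈ Set.range e} → V) :=
    Equiv.piEquivPiSubtypeProd (fun i => i ∈ Set.range e) (fun _ => V)
  let ψ : ((Set.range e) → V) ≃ (κ → V) := Equiv.arrowCongr (Equiv.ofInjective e he).symm (Equiv.refl V)
  have h1 : ∀ x : ι → V, (fun j => x (e j)) = ψ (φ x).1 := by
    intro x; funext j; simp [φ, ψ, Equiv.arrowCongr, Equiv.piEquivPiSubtypeProd]
  have h2 : av (fun x : ι → V => f (fun j => x (e j)))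
      = av (fun x : ι → V => (fun p : ((Set.range e) → V) × ({i // ¬ i ∈ Set.range e} → V) =>
          f (ψ p.1)) (φ x)) := av_congr fun x => by rw [h1]
  rw [h2, av_equiv φ (fun p => f (ψ p.1)), av_prod]
  simp only [av_const]
  exact av_equiv ψ f

/-- dyadic pigeonhole -/
lemma dyadic {ι : Type} [Fintype ι] (f φ : ι → ℝ) (lo : ℝ) (hlo : 0 < lo) (L : ℕ)
    (hf : ∀ i, 0 ≤ f i) (h : ∀ i, f i ≠ 0 → lo ≤ φ i ∧ φ i ≤ lo * 2 ^ L) :
    ∃ β : ℝ, lo ≤ β ∧ av f ≤ (L + 1) * av (fun i => f i * ind (β ≤ φ i ∧ φ i < 2 * β)) := by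
  have key : ∀ i, f i ≤ ∑ j ∈ Finset.range (L + 1),
      f i * ind (lo * 2 ^ j ≤ φ i ∧ φ i < 2 * (lo * 2 ^ j)) := by
    intro i
    by_cases hi : f i = 0
    · simp [hi]
    obtain ⟨h1, h2⟩ := h i hi
    have h3 : 1 ≤ φ i / lo := by rw [le_div_iff₀ hlo]; linarith
    obtain ⟨j, hj1, hj2⟩ := exists_nat_pow_near h3 (by norm_num : (1 : ℝ) < 2)
    rw [le_div_iff₀ hlo] at hj1
    rw [div_lt_iff₀ hlo] at hj2
    have hjL : j ≤ L := by
      have : (2 : ℝ) ^ j ≤ 2 ^ L := by nlinarith
      exact (pow_le_pow_iff_right₀ (by norm_num : (1 : ℝ) < 2)).mp this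
    have hmem : j ∈ Finset.range (L + 1) := Finset.mem_range.mpr (by omega)
    refine le_trans ?_ (Finset.single_le_sum (f := fun j => f i *
      ind (lo * 2 ^ j ≤ φ i ∧ φ i < 2 * (lo * 2 ^ j)))
      (fun j _ => mul_nonneg (hf i) (ind_nonneg _)) hmem)
    rw [ind_pos, mul_one]
    constructor
    · linarith
    · rw [pow_succ] at hj2; linarith
  have h2 := av_le_av key
  rw [av_sum] at h2
  obtain ⟨j, -, hj⟩ := Finset.exists_max_image (Finset.range (L + 1))
    (fun j => av (fun i => f i * ind (lo * 2 ^ j ≤ φ i ∧ φ i < 2 * (lo * 2 ^ j))))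
    ⟨0, by simp⟩
  refine ⟨lo * 2 ^ j, ?_, h2.trans ?_⟩
  · have : (1 : ℝ) ≤ 2 ^ j := one_le_pow₀ (by norm_num)
    nlinarith
  · have := Finset.sum_le_card_nsmul _ _ _ hj
    simpa using this

end Pool.Agent.Lib.MP_8d7d3d_lc
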