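import Pool.Agent.Lib.MP_8d7d3d_lc.Graph

/-! Many dissimilar cherries are detected. -/

namespace Pool.Agent.Lib.MP_8d7d3d_lc

variable {V : Type} [Fintype V] [Nonempty V] {E : V → V → Prop}

lemma case1_core {k : ℕ} (hs : ∀ a b, E a b → E b a) (γ g Λ lam β : ℝ) (hγ : 0 < γ)
    (hg : 0 < g) (hΛ : 1 ≤ Λ) (hγ1 : γ ≤ 1) (hgγ : 160 * Λ ^ 2 * g ^ 2 ≤ γ)
    (hk : 64 * (30 * (160 * Λ) / g) ^ 3 ≤ k)
    (B : V → Prop) (v : V → V → V → ℝ) (hlam0 : 0 < lam) (hlam1 : lam ≤ 1) (hβ : γ ≤ β)
    (hn : γ ≤ 4 * Λ * (lam * av (fun b => ind (B b))))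
    (v0 : ∀ b a c, 0 ≤ v b a c)
    (vs : ∀ b a c, v b a c ≠ 0 → B b ∧ E b a ∧ E b c ∧ ¬ Sim E (1 / 40) a c ∧
      deg E a ≤ deg E c ∧ β ≤ deg E c ∧ deg E c < 2 * β)
    (v1 : ∀ b a c, v b a c ≤ 2 / γ) (va : ∀ b c, av (fun a => v b a c) ≤ 2)
    (vc : ∀ b a, av (fun c => v b a c) ≤ 2)
    (vac : ∀ b, av (fun a => av (fun c => v b a c)) ≤ 2 * lam)
    (vtot : lam * av (fun b => ind (B b)) ≤ Λ * av (fun b => av (fun a => av (fun c => v b a c)))) :
    2 / 3 ≤ av (fun ω : Fin k → V => ind (Rej E ω)) := by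
  set n := av (fun b => ind (B b)) with hn_def
  have hβ0 : 0 < β := by linarith
  have hn1 : n ≤ 1 := av_ind_le_one _
  have hn0 : 0 < n := by
    by_contra hc
    have : n = 0 := le_antisymm (not_lt.mp hc) (av_ind_nonneg _)
    rw [this] at hn; simp at hn; linarith
  have hΛ2 : 1 ≤ Λ ^ 2 := by nlinarith
  have hg2 : g ^ 2 ≤ γ / 160 := by nlinarith [sq_nonneg g]
  have hg1 : g ≤ 1 := by nlinarith
  set μ := min n β with hμ
  have hμn : μ ≤ n := min_le_left _ _
  have hμβ : μ ≤ β := min_le_right _ _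
  have hμ0 : 0 < μ := lt_min hn0 hβ0
  have hθ : 40 * Λ * g ^ 2 ≤ lam * n := by
    have : 4 * Λ * (40 * Λ * g ^ 2) ≤ 4 * Λ * (lam * n) := by nlinarith
    exact le_of_mul_le_mul_left this (by linarith)
  have hgμ : g ^ 2 ≤ μ := by
    refine le_min ?_ (by linarith)
    nlinarith [sq_nonneg g]
  set m := Real.sqrt μ with hm
  have hmm : m * m = μ := Real.mul_self_sqrt hμ0.le
  have hm0 : 0 < m := Real.sqrt_pos.mpr hμ0
  have hm1 : m ≤ 1 := by nlinarith
  have hgm : g ≤ m := by nlinarith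
  have hμm : μ ≤ m := by nlinarith
  let w : V → V → V → V → ℝ := fun a b c d => v b a c * ind (E c d ∧ ¬ E a d) / β
  have w0 : ∀ a b c d, 0 ≤ w a b c d := fun a b c d =>
    div_nonneg (mul_nonneg (v0 _ _ _) (ind_nonneg _)) hβ0.le
  have w1 : ∀ a b c d, w a b c d ≤ v b a c / β := fun a b c d =>
    div_le_div_of_nonneg_right (mul_le_of_le_one_right (v0 _ _ _) (ind_le_one _)) hβ0.le
  have wd : ∀ a b c, av (fun d => w a b c d)
      = v b a c * av (fun d => ind (E c d ∧ ¬ E a d)) / β := by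
    intro a b c
    simp only [w]
    rw [av_div, av_mul_left]
  have w2 : ∀ a b c, av (fun d => w a b c d) ≤ 2 * v b a c := by
    intro a b c
    rw [wd]
    by_cases hv : v b a c = 0
    · simp [hv]
    obtain ⟨-, -, -, -, -, -, h7⟩ := vs b a c hv
    have : av (fun d => ind (E c d ∧ ¬ E a d)) ≤ deg E c := av_le_av fun _ => ind_mono And.left
    rw [div_le_iff₀ hβ0]
    have := v0 b a c
    nlinarith
  have w3 : ∀ a b c, v b a c / 40 ≤ av (fun d => w a b c d) := by
    intro a b c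
    rw [wd]
    by_cases hv : v b a c = 0
    · simp [hv]
    obtain ⟨-, -, -, h4, h5, h6, -⟩ := vs b a c hv
    have := diff_of_not_sim h4 h5
    rw [le_div_iff₀ hβ0]
    have := v0 b a c
    nlinarith
  have nb : ∀ a, av (fun b => ind (B b ∧ E a b ∧ deg E a < 2 * β)) ≤ 2 * μ := by
    intro a
    have h1 : av (fun b => ind (B b ∧ E a b ∧ deg E a < 2 * β)) ≤ n :=
      av_le_av fun _ => ind_mono And.left
    have h2 : av (fun b => ind (B b ∧ E a b ∧ deg E a < 2 * β)) ≤ 2 * β := by
      by_cases h : deg E a < 2 * β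
      · exact le_trans (av_le_av fun _ => ind_mono fun h => h.2.1) h.le
      · refine le_trans (av_le_zero fun b => ind_neg fun h' => h h'.2.2) (by linarith)
    rcases le_total n β with h | h
    · rw [hμ, min_eq_left h]; linarith
    · rw [hμ, min_eq_right h]; linarith
  have sa : ∀ b a c, ¬ (B b ∧ E a b ∧ deg E a < 2 * β) → v b a c = 0 := by
    intro b a c h
    by_contra hv
    obtain ⟨h1, h2, -, -, h5, -, h7⟩ := vs b a c hv
    exact h ⟨h1, hs _ _ h2, by linarith⟩
  have sc : ∀ b a c, ¬ (B b ∧ E c b ∧ deg E c < 2 * β) → v b a c = 0 := by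
    intro b a c h
    by_contra hv
    obtain ⟨h1, -, h3, -, -, -, h7⟩ := vs b a c hv
    exact h ⟨h1, hs _ _ h3, h7⟩
  have A1 : ∀ a c, av (fun b => v b a c) ≤ 4 * μ / γ := by
    intro a c
    have : av (fun b => v b a c) ≤ av (fun b => 2 / γ * ind (B b ∧ E c b ∧ deg E c < 2 * β)) :=
      av_le_av fun b => le_mul_ind (v1 b a c) fun h => (sc b a c h).le
    rw [av_mul_left] at this
    refine this.trans ?_
    have h2 := nb c
    calc _ ≤ 2 / γ * (2 * μ) := by gcongr
      _ = _ := by ring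
  have A2 : ∀ a, av (fun b => av (fun c => v b a c)) ≤ 4 * μ := by
    intro a
    have : av (fun b => av (fun c => v b a c))
        ≤ av (fun b => 2 * ind (B b ∧ E a b ∧ deg E a < 2 * β)) :=
      av_le_av fun b => le_mul_ind (vc b a) fun h => av_le_zero fun c => sa b a c h
    rw [av_mul_left] at this
    linarith [nb a]
  have A3 : ∀ c, av (fun a => av (fun b => v b a c)) ≤ 4 * μ := by
    intro c
    rw [av_comm]
    have : av (fun b => av (fun a => v b a c))
        ≤ av (fun b => 2 * ind (B b ∧ E c b ∧ deg E c < 2 * β)) :=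
      av_le_av fun b => le_mul_ind (va b c) fun h => av_le_zero fun a => sc b a c h
    rw [av_mul_left] at this
    linarith [nb c]
  have A4 : av (fun a => av (fun b => av (fun c => v b a c))) ≤ 2 * lam * n := by
    rw [av_comm, hn_def, ← av_mul_left]
    refine av_le_av fun b => le_mul_ind (vac b) fun h => av_le_zero fun a => ?_
    refine le_antisymm (av_le_zero fun c => ?_) (av_nonneg fun c => v0 _ _ _)
    by_contra hv
    exact h (vs b a c hv).1
  set W := av (fun a => av (fun b => av (fun c => av (fun d => w a b c d)))) with hW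
  have hW1 : lam * n ≤ 40 * Λ * W := by
    have h1 : av (fun a => av (fun b => av (fun c => v b a c / 40))) ≤ W :=
      av_le_av fun a => av_le_av fun b => av_le_av fun c => w3 a b c
    simp only [av_div] at h1
    rw [av_comm] at h1
    nlinarith
  have hW2 : g ^ 2 ≤ W := by
    have : 40 * Λ * g ^ 2 ≤ 40 * Λ * W := by linarith
    exact le_of_mul_le_mul_left this (by linarith)
  have hW0 : 0 < W := lt_of_lt_of_le (by positivity) hW2
  set κ := 160 * Λ with hκ
  have hκ1 : 160 ≤ κ := by linarith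
  have hg20 : 0 < g ^ 2 := by positivity
  have t3 : 4 / γ ≤ κ / g ^ 2 := by
    rw [div_le_div_iff₀ hγ hg20]; nlinarith
  have t3' : 2 / β ≤ κ / g ^ 2 := by
    refine le_trans ?_ t3
    rw [div_le_div_iff₀ hβ0 hγ]; nlinarith
  have t2 : 4 * μ / β ≤ κ := by
    rw [div_le_iff₀ hβ0]; nlinarith
  have hS : κ * m ≤ κ * m / g ^ 2 * W := by
    rw [div_mul_eq_mul_div, le_div_iff₀ hg20]
    have : 0 < κ * m := by positivity
    gcongr
  have hT : 4 * (lam * n) / μ ≤ κ / μ * W := by
    rw [div_mul_eq_mul_div]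
    exact div_le_div_of_nonneg_right (by rw [hκ]; linarith) hμ0.le
  refine detect_scale E g κ (κ * m / g ^ 2) (κ / μ) hg hg1 (by linarith) hk (by positivity)
    (by positivity) ?_ ?_ ?_ w W hW2 rfl w0 ?_ ?_ ?_ ?_ ?_ ?_ ?_ ?_ ?_ ?_ ?_ ?_ ?_ ?_ ?_ ?_
  · gcongr; nlinarith
  · gcongr
  · have e : κ * m / g ^ 2 * (κ / μ) = κ ^ 2 / (g ^ 2 * m) := by rw [← hmm]; field_simp
    rw [e, div_le_div_iff₀ (by positivity) (by positivity)]
    have h1 : κ ^ 2 * g ^ 3 = κ ^ 2 * g ^ 2 * (1 * g) := by ring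
    have h2 : κ ^ 3 * (g ^ 2 * m) = κ ^ 2 * g ^ 2 * (κ * m) := by ring
    rw [h1, h2]
    gcongr
    linarith
  · intro a b c d h
    have hv : v b a c ≠ 0 := by
      intro hv; simp [w, hv] at h
    have hi : ind (E c d ∧ ¬ E a d) ≠ 0 := by
      intro hv; simp [w, hv] at h
    obtain ⟨-, h2, h3, -⟩ := vs b a c hv
    exact ⟨hs _ _ h2, hs _ _ h3, (of_ind_ne hi).1, (of_ind_ne hi).2⟩
  · intro a b c d
    refine (w1 a b c d).trans ?_
    calc v b a c / β ≤ 2 / γ / γ := by gcongr; exact v1 _ _ _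
      _ = 2 / γ ^ 2 := by ring
      _ ≤ κ / (g ^ 2) ^ 2 := by gcongr <;> linarith
      _ = _ := by ring
  · intro a b c
    refine (w2 a b c).trans (le_trans ?_ t3)
    have := v1 b a c
    calc _ ≤ 2 * (2 / γ) := by linarith
      _ = _ := by ring
  · intro a b d
    refine (av_le_av fun c => w1 a b c d).trans (le_trans ?_ t3')
    rw [av_div]; gcongr; exact vc b a
  · intro a c d
    refine (av_le_av fun b => w1 a b c d).trans (le_trans ?_ t3)
    rw [av_div, div_le_iff₀ hβ0]
    refine (A1 a c).trans ?_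
    calc 4 * μ / γ ≤ 4 * β / γ := by gcongr
      _ = _ := by ring
  · intro b c d
    refine (av_le_av fun a => w1 a b c d).trans (le_trans ?_ t3')
    rw [av_div]; gcongr; exact va b c
  · intro a b
    refine (av_le_av fun c => w2 a b c).trans ?_
    rw [av_mul_left]; linarith [vc b a]
  · intro a c
    refine (av_le_av fun b => w2 a b c).trans ?_
    rw [av_mul_left]
    have h1 := A1 a c
    have h2 : κ * m / g ^ 2 * (κ * m) ≤ κ * m / g ^ 2 * (κ * m / g ^ 2 * W) := by gcongr
    have h3 : κ * m / g ^ 2 * (κ * m) = κ ^ 2 * μ / g ^ 2 := by rw [← hmm]; ring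
    have h4 : 8 * μ / γ ≤ κ ^ 2 * μ / g ^ 2 := by gcongr <;> nlinarith
    have h5 : 8 * μ / γ = 2 * (4 * μ / γ) := by ring
    rw [mul_assoc]
    linarith
  · intro a d
    refine (av_le_av fun b => av_le_av fun c => w1 a b c d).trans (le_trans ?_ t2)
    simp only [av_div]; gcongr; exact A2 a
  · intro b c
    refine (av_le_av fun a => w2 a b c).trans ?_
    rw [av_mul_left]; linarith [va b c]
  · intro b d
    refine (av_le_av fun a => av_le_av fun c => w1 a b c d).trans ?_
    simp only [av_div]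
    have h1 : κ / μ * (4 * (lam * n) / μ) ≤ κ / μ * (κ / μ * W) := by gcongr
    rw [mul_assoc]
    refine le_trans ?_ h1
    calc _ ≤ 2 * lam / β := by gcongr; exact vac b
      _ ≤ 2 * lam / μ := by gcongr
      _ = 1 / μ * (2 * (lam * μ) / μ) := by field_simp
      _ ≤ _ := by gcongr <;> linarith
  · intro c d
    refine (av_le_av fun a => av_le_av fun b => w1 a b c d).trans (le_trans ?_ t2)
    simp only [av_div]; gcongr; exact A3 c
  · intro a
    refine (av_le_av fun b => av_le_av fun c => w2 a b c).trans (le_trans ?_ hS)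
    simp only [av_mul_left]; nlinarith [A2 a]
  · intro b
    refine (av_le_av fun a => av_le_av fun c => w2 a b c).trans (le_trans ?_ hT)
    simp only [av_mul_left]
    rw [le_div_iff₀ hμ0]
    have := vac b
    nlinarith
  · intro c
    refine (av_le_av fun a => av_le_av fun b => w2 a b c).trans (le_trans ?_ hS)
    simp only [av_mul_left]; nlinarith [A3 c]
  · intro d
    refine (av_le_av fun a => av_le_av fun b => av_le_av fun c => w1 a b c d).trans
      (le_trans ?_ hT)
    simp only [av_div]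
    have : 0 < lam * n := by positivity
    calc _ ≤ 2 * lam * n / β := by gcongr
      _ ≤ 2 * lam * n / μ := by gcongr
      _ ≤ _ := div_le_div_of_nonneg_right (by linarith) hμ0.le

/-- density of the neighbours of `b` that are not similar to `x` -/
noncomputable def dis (E : V → V → Prop) (b x : V) : ℝ :=
  av (fun y => ind (E b y ∧ ¬ Sim E (1 / 40) x y))

lemma case1 {k : ℕ} (hs : ∀ a b, E a b → E b a) (γ g : ℝ) (L : ℕ) (hγ : 0 < γ)
    (hg : 0 < g) (hγ1 : γ ≤ 1) (hL : 4 ≤ γ ^ 2 * 2 ^ L)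
    (hgγ : 160 * ((L : ℝ) + 1) ^ 2 * g ^ 2 ≤ γ)
    (hk : 64 * (30 * (160 * ((L : ℝ) + 1)) / g) ^ 3 ≤ k)
    (hmin : ∀ a b, E a b → γ ≤ deg E a)
    (τ : V → ℝ) (hτ0 : ∀ b, 0 ≤ τ b) (hτ1 : ∀ b, τ b ≤ deg E b)
    (hτ2 : ∀ b x, E b x → τ b ≤ dis E b x) (hT : γ ≤ av τ) :
    2 / 3 ≤ av (fun ω : Fin k → V => ind (Rej E ω)) := by
  have hL2 : (0 : ℝ) < 2 ^ L := by positivity
  have hL3 : 4 ≤ γ * 2 ^ L := by nlinarith
  have hΛ : (1 : ℝ) ≤ L + 1 := by have : (0 : ℝ) ≤ L := Nat.cast_nonneg _; linarith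
  obtain ⟨lam, hlam, h1⟩ := dyadic (fun b => τ b * ind (γ / 2 ≤ τ b)) τ (γ / 2) (by linarith) L
    (fun b => mul_nonneg (hτ0 b) (ind_nonneg _)) (by
      intro b hb
      refine ⟨of_ind_ne (right_ne_zero_of_mul hb), ?_⟩
      have := (hτ1 b).trans (deg_le_one b)
      linarith)
  let B : V → Prop := fun b => lam ≤ τ b ∧ τ b < 2 * lam
  have hlam0 : 0 < lam := by linarith
  have h2 : γ / 2 ≤ av (fun b => τ b * ind (γ / 2 ≤ τ b)) := by
    have : av τ ≤ av (fun b => τ b * ind (γ / 2 ≤ τ b) + γ / 2) := by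
      refine av_le_av fun b => ?_
      by_cases h : γ / 2 ≤ τ b
      · rw [ind_pos h]; linarith
      · rw [ind_neg h]; linarith
    rw [av_add, av_const] at this
    linarith
  have h3 : av (fun b => τ b * ind (γ / 2 ≤ τ b) * ind (lam ≤ τ b ∧ τ b < 2 * lam))
      ≤ 2 * lam * av (fun b => ind (B b)) := by
    rw [← av_mul_left]
    refine av_le_av fun b => le_mul_ind ?_ fun h => by rw [ind_neg h, mul_zero]
    by_cases h : B b
    · rw [ind_pos h, mul_one]
      have := mul_le_of_le_one_right (hτ0 b) (ind_le_one (γ / 2 ≤ τ b))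
      linarith [h.2]
    · rw [ind_neg h]; linarith
  have hn : γ ≤ 4 * (L + 1) * (lam * av (fun b => ind (B b))) := by
    have := mul_le_mul_of_nonneg_left h3 (by linarith : (0 : ℝ) ≤ L + 1)
    linarith
  have hlam1 : lam ≤ 1 := by
    have : 0 < av (fun b => ind (B b)) := by
      by_contra hc
      have : av (fun b => ind (B b)) = 0 := le_antisymm (not_lt.mp hc) (av_ind_nonneg _)
      rw [this] at hn; simp at hn; linarith
    obtain ⟨b, hb⟩ := exists_of_av_ind_pos this
    exact hb.1.trans ((hτ1 b).trans (deg_le_one b))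
  let u : V → V → V → ℝ := fun b x y =>
    ind (B b ∧ E b x) * ind (E b y ∧ ¬ Sim E (1 / 40) x y) * (lam / (deg E b * dis E b x))
  have dis0 : ∀ b x, 0 ≤ dis E b x := fun b x => av_ind_nonneg _
  have u0 : ∀ b x y, 0 ≤ u b x y := fun b x y =>
    mul_nonneg (mul_nonneg (ind_nonneg _) (ind_nonneg _))
      (div_nonneg hlam0.le (mul_nonneg (deg_nonneg _) (dis0 _ _)))
  have us : ∀ b x y, u b x y ≠ 0 → (B b ∧ E b x) ∧ E b y ∧ ¬ Sim E (1 / 40) x y := fun b x y h =>
    ⟨of_ind_ne (left_ne_zero_of_mul (left_ne_zero_of_mul h)),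
      of_ind_ne (right_ne_zero_of_mul (left_ne_zero_of_mul h))⟩
  have u1 : ∀ b x y, u b x y ≤ 1 / deg E b * ind (E b x) := by
    intro b x y
    by_cases h : u b x y = 0
    · rw [h]; exact mul_nonneg (div_nonneg zero_le_one (deg_nonneg _)) (ind_nonneg _)
    obtain ⟨e1, e2⟩ := us b x y h
    have d1 := deg_pos_of_adj e1.2
    have d2 : lam ≤ dis E b x := e1.1.1.trans (hτ2 b x e1.2)
    simp only [u]
    rw [ind_pos e1, ind_pos e2, ind_pos e1.2, one_mul, one_mul, mul_one,
      div_le_div_iff₀ (mul_pos d1 (by linarith)) d1]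
    nlinarith
  have uy : ∀ b x, av (fun y => u b x y) = ind (B b ∧ E b x) * (lam / deg E b) := by
    intro b x
    simp only [u]
    rw [av_mul_right, av_mul_left]
    by_cases e1 : B b ∧ E b x
    · have d1 := deg_pos_of_adj e1.2
      have d2 : lam ≤ dis E b x := e1.1.1.trans (hτ2 b x e1.2)
      have d3 : 0 < dis E b x := by linarith
      change _ * dis E b x * _ = _
      field_simp
    · rw [ind_neg e1]; simp
  have uy1 : ∀ b x, av (fun y => u b x y) ≤ 1 := by
    intro b x
    rw [uy]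
    by_cases e1 : B b ∧ E b x
    · have d1 := deg_pos_of_adj e1.2
      rw [ind_pos e1, one_mul, div_le_one d1]
      exact e1.1.1.trans (hτ1 b)
    · rw [ind_neg e1]; simp
  have ux1 : ∀ b y, av (fun x => u b x y) ≤ 1 := by
    intro b y
    refine (av_le_av fun x => u1 b x y).trans ?_
    rw [av_mul_left]
    change 1 / deg E b * deg E b ≤ 1
    rcases (deg_nonneg (E := E) b).eq_or_lt with h | h
    · rw [← h]; simp
    · rw [one_div_mul_cancel h.ne']
  have uxy : ∀ b, av (fun x => av (fun y => u b x y)) = ind (B b) * lam := by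
    intro b
    simp only [uy, ind_and]
    rw [av_mul_right, av_mul_left]
    by_cases hb : B b
    · have d1 : 0 < deg E b := lt_of_lt_of_le hlam0 (hb.1.trans (hτ1 b))
      change _ * deg E b * _ = _
      field_simp
    · rw [ind_neg hb]; simp
  let u2 : V → V → V → ℝ := fun b a c => (u b a c + u b c a) * ind (deg E a ≤ deg E c)
  have u20 : ∀ b a c, 0 ≤ u2 b a c := fun b a c =>
    mul_nonneg (add_nonneg (u0 _ _ _) (u0 _ _ _)) (ind_nonneg _)
  have u21 : ∀ b a c, u2 b a c ≤ u b a c + u b c a := fun b a c =>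
    mul_le_of_le_one_right (add_nonneg (u0 _ _ _) (u0 _ _ _)) (ind_le_one _)
  have u2s : ∀ b a c, u2 b a c ≠ 0 → B b ∧ E b a ∧ E b c ∧ ¬ Sim E (1 / 40) a c ∧
      deg E a ≤ deg E c := by
    intro b a c h
    have e2 := of_ind_ne (right_ne_zero_of_mul h)
    have e1 := left_ne_zero_of_mul h
    by_cases h' : u b a c = 0
    · rw [h', zero_add] at e1
      obtain ⟨f1, f2, f3⟩ := us _ _ _ e1
      exact ⟨f1.1, f2, f1.2, fun hh => f3 hh.symm, e2⟩
    · obtain ⟨f1, f2, f3⟩ := us _ _ _ h'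
      exact ⟨f1.1, f1.2, f2, f3, e2⟩
  have u2t : ∀ b, ind (B b) * lam ≤ av (fun a => av (fun c => u2 b a c)) := by
    intro b
    have e1 : av (fun a => av (fun c => u2 b a c))
        = av (fun a => av (fun c => u b a c * ind (deg E a ≤ deg E c)))
          + av (fun a => av (fun c => u b a c * ind (deg E c ≤ deg E a))) := by
      rw [av_comm (fun a c => u b a c * ind (deg E c ≤ deg E a)), ← av_add]
      refine av_congr fun a => ?_
      rw [← av_add]
      refine av_congr fun c => ?_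
      simp only [u2]; ring
    rw [e1, ← uxy, ← av_add]
    refine av_le_av fun a => ?_
    rw [← av_add]
    refine av_le_av fun c => ?_
    have := u0 b a c
    rcases le_total (deg E a) (deg E c) with h | h
    · rw [ind_pos h]; nlinarith [ind_nonneg (deg E c ≤ deg E a)]
    · rw [ind_pos h]; nlinarith [ind_nonneg (deg E a ≤ deg E c)]
  obtain ⟨β, hβ, h4⟩ := dyadic (fun c => av (fun b => av (fun a => u2 b a c))) (deg E) γ hγ L
    (fun c => av_nonneg fun b => av_nonneg fun a => u20 _ _ _) (by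
      intro c hc
      have hp : 0 < av (fun b => av (fun a => u2 b a c)) :=
        lt_of_le_of_ne (av_nonneg fun b => av_nonneg fun a => u20 _ _ _) (Ne.symm hc)
      obtain ⟨b, hb⟩ := exists_pos_of_av_pos hp
      obtain ⟨a, ha⟩ := exists_pos_of_av_pos hb
      refine ⟨hmin c b (hs _ _ (u2s b a c ha.ne').2.2.1), ?_⟩
      linarith [deg_le_one (E := E) c])
  let v : V → V → V → ℝ := fun b a c => u2 b a c * ind (β ≤ deg E c ∧ deg E c < 2 * β)
  have v2 : ∀ b a c, v b a c ≤ u b a c + u b c a := fun b a c =>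
    (mul_le_of_le_one_right (u20 _ _ _) (ind_le_one _)).trans (u21 _ _ _)
  have u3 : ∀ b x y, u b x y ≤ 1 / γ := by
    intro b x y
    refine (u1 b x y).trans ?_
    by_cases h : E b x
    · rw [ind_pos h, mul_one]
      exact one_div_le_one_div_of_le hγ (hmin b x h)
    · rw [ind_neg h, mul_zero]; positivity
  refine case1_core hs γ g (L + 1) lam β hγ hg hΛ hγ1 hgγ hk B v hlam0 hlam1 hβ hn
    (fun b a c => mul_nonneg (u20 _ _ _) (ind_nonneg _)) ?_ ?_ ?_ ?_ ?_ ?_
  · intro b a c h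
    obtain ⟨f1, f2, f3, f4, f5⟩ := u2s b a c (left_ne_zero_of_mul h)
    have := of_ind_ne (right_ne_zero_of_mul h)
    exact ⟨f1, f2, f3, f4, f5, this.1, this.2⟩
  · intro b a c
    have := u3 b a c
    have := u3 b c a
    calc _ ≤ _ := v2 b a c
      _ ≤ 1 / γ + 1 / γ := by linarith
      _ = _ := by ring
  · intro b c
    refine (av_le_av fun a => v2 b a c).trans ?_
    rw [av_add]; linarith [ux1 b c, uy1 b c]
  · intro b a
    refine (av_le_av fun c => v2 b a c).trans ?_
    rw [av_add]; linarith [ux1 b a, uy1 b a]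
  · intro b
    refine (av_le_av fun a => av_le_av fun c => v2 b a c).trans ?_
    simp only [av_add]
    rw [av_comm (fun a c => u b c a), uxy]
    nlinarith [ind_le_one (B b)]
  · have e1 : lam * av (fun b => ind (B b))
        ≤ av (fun c => av (fun b => av (fun a => u2 b a c))) := by
      rw [av_rot3 (fun c b a => u2 b a c), mul_comm, ← av_mul_right]
      exact av_le_av u2t
    refine e1.trans (h4.trans (le_of_eq ?_))
    congr 1
    rw [← av_rot3 (fun c b a => v b a c)]
    refine av_congr fun c => ?_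
    simp only [v, av_mul_right]

end Pool.Agent.Lib.MP_8d7d3d_lc
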