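import Pool.Agent.Lib.MP_8d7d3d_lc.Graph

/-! Many missing pairs inside clusters are detected. -/

namespace Pool.Agent.Lib.MP_8d7d3d_lc

variable {V : Type} [Fintype V] [Nonempty V] {E : V → V → Prop}

/-- a non-edge that should be an edge -/
def Miss (E : V → V → Prop) (a d : V) : Prop :=
  ¬ E a d ∧ 0 < deg E a ∧ 0 < deg E d ∧
    7 / 8 * deg E a ≤ av (fun b => ind (E a b ∧ Sim E (1 / 16) b d)) ∧
    7 / 8 * deg E d ≤ av (fun c => ind (E d c ∧ Sim E (1 / 16) c a))

omit [Nonempty V] in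
lemma Miss.symm (hs : ∀ a b, E a b → E b a) {a d : V} (h : Miss E a d) : Miss E d a :=
  ⟨fun h' => h.1 (hs _ _ h'), h.2.2.1, h.2.1, h.2.2.2.2, h.2.2.2.1⟩

omit [Nonempty V] in
lemma miss_deg (hs : ∀ a b, E a b → E b a) (a : V) :
    av (fun d => ind (Miss E a d)) ≤ 2 * deg E a := by
  by_cases hex : ∃ d0, Miss E a d0
  swap
  · refine (av_le_zero fun d => ind_neg fun h => hex ⟨d, h⟩).trans ?_
    linarith [deg_nonneg (E := E) a]
  obtain ⟨d0, h0⟩ := hex
  have key : ∀ d, 7 / 10 * deg E d0 * ind (Miss E a d)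
      ≤ av (fun c => ind (E d0 c ∧ Sim E (1 / 16) c a) * ind (E c d)) := by
    intro d
    by_cases hd : Miss E a d
    swap
    · rw [ind_neg hd, mul_zero]
      exact av_nonneg fun c => mul_nonneg (ind_nonneg _) (ind_nonneg _)
    rw [ind_pos hd, mul_one]
    have h1 := av_inter (fun b => E a b ∧ Sim E (1 / 16) b d) (fun b => E a b ∧ Sim E (1 / 16) b d0)
      (fun b => E a b) (fun _ h => h.1) (fun _ h => h.1)
    have h2 : 0 < av (fun b => ind ((E a b ∧ Sim E (1 / 16) b d) ∧
        (E a b ∧ Sim E (1 / 16) b d0))) := by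
      have e1 := hd.2.2.2.1
      have e2 := h0.2.2.2.1
      have e3 := h0.2.1
      change _ ≤ deg E a + _ at h1
      linarith
    obtain ⟨b, ⟨-, hb1⟩, -, hb2⟩ := exists_of_av_ind_pos h2
    have h3 := cod_tri (E := E) d b d0
    have h4 := hb1.1
    have h5 := hb2.2
    have h6 := hb2.deg_le
    rw [cod_comm d b] at h3
    have h7 := av_inter (fun c => E d c ∧ E d0 c) (fun c => E d0 c ∧ Sim E (1 / 16) c a)
      (fun c => E d0 c) (fun _ h => h.2) (fun _ h => h.1)
    change cod E d d0 + _ ≤ deg E d0 + _ at h7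
    have h8 := h0.2.2.2.2
    have h9 : av (fun c => ind ((E d c ∧ E d0 c) ∧ E d0 c ∧ Sim E (1 / 16) c a))
        ≤ av (fun c => ind (E d0 c ∧ Sim E (1 / 16) c a) * ind (E c d)) := by
      refine av_le_av fun c => ?_
      rw [← ind_and]
      exact ind_mono fun h => ⟨h.2, hs _ _ h.1.1⟩
    have h10 := h0.2.2.1
    linarith
  have h1 := av_le_av key
  rw [av_mul_left, av_comm] at h1
  have h2 : av (fun c => av (fun d => ind (E d0 c ∧ Sim E (1 / 16) c a) * ind (E c d)))
      ≤ av (fun c => 16 / 15 * deg E a * ind (E d0 c)) := by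
    refine av_le_av fun c => ?_
    rw [av_mul_left]
    change _ * deg E c ≤ _
    by_cases hc : E d0 c ∧ Sim E (1 / 16) c a
    · rw [ind_pos hc, ind_pos hc.1]
      linarith [hc.2.deg_le]
    · rw [ind_neg hc, zero_mul]
      exact mul_nonneg (by linarith [deg_nonneg (E := E) a]) (ind_nonneg _)
  rw [av_mul_left] at h2
  change _ ≤ _ * deg E d0 at h2
  have h3 := h0.2.2.1
  have h4 := h0.2.1
  have h5 : deg E d0 * (7 / 10 * av (fun d => ind (Miss E a d)))
      ≤ deg E d0 * (16 / 15 * deg E a) := by linarith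
  have h6 := le_of_mul_le_mul_left h5 h3
  linarith

omit [Fintype V] [Nonempty V] in
lemma mul_div_le_of {x c y : ℝ} (hc : 0 ≤ c) (hy : 0 ≤ y) (h : x ≤ c * y) : x / y ≤ c := by
  rcases hy.eq_or_lt with h0 | h0
  · rw [← h0, div_zero]; exact hc
  · rwa [div_le_iff₀ h0]

lemma case2_core {k : ℕ} (hs : ∀ a b, E a b → E b a) (γ g Λ f μA μB : ℝ) (hγ : 0 < γ)
    (hg : 0 < g) (hΛ : 1 ≤ Λ) (hγ1 : γ ≤ 1) (hg2 : g ^ 2 ≤ γ)
    (hk : 64 * (30 * (160 * Λ) / g) ^ 3 ≤ k)
    (hmin : ∀ a b, E a b → γ ≤ deg E a)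
    (M : V → V → Prop) (hM : ∀ a d, M a d → Miss E a d ∧ f ^ 2 * deg E d ≤ deg E a ∧
      deg E a < 2 * f ^ 2 * deg E d) (hf : 0 < f) (hgf : g ≤ f) (hfg : f * g ≤ 1)
    (θ : ℝ) (hθ : av (fun a => av (fun d => ind (M a d))) = θ) (hθg : 2 * g ^ 2 ≤ θ)
    (hA : ∀ a, av (fun d => ind (M a d)) ≤ μA) (hB : ∀ d, av (fun a => ind (M a d)) ≤ μB)
    (hA0 : 0 ≤ μA) (hB0 : 0 ≤ μB) (hA1 : μA ≤ 1) (hB1 : μB ≤ 1) (hA2 : μA ≤ 2 * f)
    (hB2 : μB ≤ 2 / f) (hAB : μA * μB * g ≤ 3 * Λ * θ) :
    2 / 3 ≤ av (fun ω : Fin k → V => ind (Rej E ω)) := by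
  have hg20 : 0 < g ^ 2 := by positivity
  have hθ0 : 0 < θ := by linarith
  have hg1 : g ≤ 1 := by nlinarith
  have hγd : ∀ a, 0 < deg E a → γ ≤ deg E a := fun a h => by
    obtain ⟨b, hb⟩ := exists_of_av_ind_pos h
    exact hmin a b hb
  have mA : ∀ a, av (fun d => ind (M a d)) ≤ 2 * deg E a := fun a =>
    (av_le_av fun d => ind_mono fun h => (hM a d h).1).trans (miss_deg hs a)
  have mB : ∀ d, av (fun a => ind (M a d)) ≤ 2 * deg E d := fun d =>
    (av_le_av fun a => ind_mono fun h => (hM a d h).1.symm hs).trans (miss_deg hs d)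
  let w : V → V → V → V → ℝ := fun a b c d =>
    ind (M a d) * ind (E a b ∧ Sim E (1 / 16) b d) * ind (E d c ∧ Sim E (1 / 16) c a)
      * ind (E c b) / (deg E a * deg E d)
  have dn : ∀ a, 0 ≤ deg E a := deg_nonneg
  have w0 : ∀ a b c d, 0 ≤ w a b c d := fun a b c d =>
    div_nonneg (mul_nonneg (mul_nonneg (mul_nonneg (ind_nonneg _) (ind_nonneg _)) (ind_nonneg _))
      (ind_nonneg _)) (mul_nonneg (dn _) (dn _))
  have ws : ∀ a b c d, w a b c d ≠ 0 → M a d ∧ (E a b ∧ Sim E (1 / 16) b d) ∧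
      (E d c ∧ Sim E (1 / 16) c a) ∧ E c b ∧ w a b c d = 1 / (deg E a * deg E d) := by
    intro a b c d h
    have h1 := (div_ne_zero_iff.mp h).1
    have e4 := of_ind_ne (right_ne_zero_of_mul h1)
    have e3 := of_ind_ne (right_ne_zero_of_mul (left_ne_zero_of_mul h1))
    have e2 := of_ind_ne (right_ne_zero_of_mul (left_ne_zero_of_mul (left_ne_zero_of_mul h1)))
    have e1 := of_ind_ne (left_ne_zero_of_mul (left_ne_zero_of_mul (left_ne_zero_of_mul h1)))
    refine ⟨e1, e2, e3, e4, ?_⟩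
    simp only [w]
    rw [ind_pos e1, ind_pos e2, ind_pos e3, ind_pos e4]; simp
  have wb : ∀ a c d, av (fun b => w a b c d)
      ≤ ind (M a d ∧ E d c ∧ Sim E (1 / 16) c a) / deg E d := by
    intro a c d
    by_cases h : M a d ∧ E d c ∧ Sim E (1 / 16) c a
    · have da := (hM a d h.1).1.2.1
      have dd := (hM a d h.1).1.2.2.1
      have : av (fun b => w a b c d) ≤ av (fun b => 1 / (deg E a * deg E d) * ind (E a b)) := by
        refine av_le_av fun b => ?_
        by_cases hw : w a b c d = 0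
        · rw [hw]; exact mul_nonneg (by positivity) (ind_nonneg _)
        · obtain ⟨-, e2, -, -, e5⟩ := ws a b c d hw
          rw [e5, ind_pos e2.1, mul_one]
      rw [av_mul_left] at this
      change _ ≤ _ * deg E a at this
      rw [ind_pos h]
      refine this.trans (le_of_eq ?_)
      field_simp
    · rw [ind_neg h, zero_div]
      refine av_le_zero fun b => ?_
      by_contra hw
      obtain ⟨e1, -, e3, -⟩ := ws a b c d hw
      exact h ⟨e1, e3⟩
  have wc : ∀ a b d, av (fun c => w a b c d)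
      ≤ ind (M a d ∧ E a b ∧ Sim E (1 / 16) b d) / deg E a := by
    intro a b d
    by_cases h : M a d ∧ E a b ∧ Sim E (1 / 16) b d
    · have da := (hM a d h.1).1.2.1
      have dd := (hM a d h.1).1.2.2.1
      have : av (fun c => w a b c d) ≤ av (fun c => 1 / (deg E a * deg E d) * ind (E d c)) := by
        refine av_le_av fun c => ?_
        by_cases hw : w a b c d = 0
        · rw [hw]; exact mul_nonneg (by positivity) (ind_nonneg _)
        · obtain ⟨-, -, e3, -, e5⟩ := ws a b c d hw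
          rw [e5, ind_pos e3.1, mul_one]
      rw [av_mul_left] at this
      change _ ≤ _ * deg E d at this
      rw [ind_pos h]
      refine this.trans (le_of_eq ?_)
      field_simp
    · rw [ind_neg h, zero_div]
      refine av_le_zero fun c => ?_
      by_contra hw
      obtain ⟨e1, e2, -⟩ := ws a b c d hw
      exact h ⟨e1, e2⟩
  have wbc : ∀ a d, av (fun b => av (fun c => w a b c d)) ≤ ind (M a d) := by
    intro a d
    refine (av_le_av fun b => wc a b d).trans ?_
    rw [av_div]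
    refine mul_div_le_of (ind_nonneg _) (dn a) ?_
    unfold deg
    rw [← av_mul_left]
    refine av_le_av fun b => ?_
    rw [← ind_and]
    exact ind_mono fun h => ⟨h.1, h.2.1⟩
  have wbc' : ∀ a d, ind (M a d) / 2 ≤ av (fun b => av (fun c => w a b c d)) := by
    intro a d
    by_cases h : M a d
    swap
    · rw [ind_neg h, zero_div]; exact av_nonneg fun b => av_nonneg fun c => w0 _ _ _ _
    obtain ⟨-, da, dd, e4, e5⟩ := (hM a d h).1
    rw [av_comm, ind_pos h]
    have key : ∀ c, 13 / 16 / deg E d * ind (E d c ∧ Sim E (1 / 16) c a)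
        ≤ av (fun b => w a b c d) := by
      intro c
      by_cases hc : E d c ∧ Sim E (1 / 16) c a
      swap
      · rw [ind_neg hc, mul_zero]; exact av_nonneg fun b => w0 _ _ _ _
      have h1 := av_inter (fun b => E a b ∧ Sim E (1 / 16) b d) (fun b => E c b ∧ E a b)
        (fun b => E a b) (fun _ h => h.1) (fun _ h => h.2)
      change _ + cod E c a ≤ deg E a + _ at h1
      have h2 := hc.2.2
      have h3 : av (fun b => w a b c d) = av (fun b =>
          ind ((E a b ∧ Sim E (1 / 16) b d) ∧ E c b ∧ E a b)) / (deg E a * deg E d) := by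
        rw [← av_div]
        refine av_congr fun b => ?_
        simp only [w]
        rw [ind_pos h, ind_pos hc, one_mul, mul_one, ← ind_and]
        congr 1
        exact ind_congr ⟨fun h => ⟨h.1, h.2, h.1.1⟩, fun h => ⟨h.1, h.2.1⟩⟩
      rw [h3, ind_pos hc, mul_one, div_le_div_iff₀ dd (mul_pos da dd)]
      nlinarith
    refine le_trans ?_ (av_le_av key)
    rw [av_mul_left, div_mul_eq_mul_div, le_div_iff₀ dd]
    nlinarith
  set W := av (fun a => av (fun b => av (fun c => av (fun d => w a b c d)))) with hW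
  have hW1 : θ / 2 ≤ W := by
    rw [← hθ, ← av_div]
    refine av_le_av fun a => ?_
    rw [← av_div, ← av_rot3 (fun d b c => w a b c d)]
    exact av_le_av fun d => wbc' a d
  have hW2 : g ^ 2 ≤ W := by linarith
  have hW0 : 0 < W := by linarith
  have Mab : ∀ a b, av (fun c => av (fun d => w a b c d)) ≤ 2 * ind (E a b) := by
    intro a b
    rw [av_comm]
    refine (av_le_av fun d => wc a b d).trans ?_
    rw [av_div]
    refine le_mul_ind (mul_div_le_of (by norm_num) (dn a) ?_) fun h => ?_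
    · exact (av_le_av fun d => ind_mono And.left).trans (mA a)
    · rw [av_congr (g := fun _ => 0) fun d => ind_neg fun h' => h h'.2.1, av_zero, zero_div]
  have Mcd : ∀ c d, av (fun a => av (fun b => w a b c d)) ≤ 2 * ind (E d c) := by
    intro c d
    refine (av_le_av fun a => wb a c d).trans ?_
    rw [av_div]
    refine le_mul_ind (mul_div_le_of (by norm_num) (dn d) ?_) fun h => ?_
    · exact (av_le_av fun a => ind_mono And.left).trans (mB d)
    · rw [av_congr (g := fun _ => 0) fun a => ind_neg fun h' => h h'.2.1, av_zero, zero_div]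
  set κ := 160 * Λ with hκ
  have hκ1 : 160 ≤ κ := by linarith
  have t3 : 2 / γ ≤ κ / g ^ 2 := by
    rw [div_le_div_iff₀ hγ hg20]; nlinarith
  have t3' : 1 / γ ≤ κ / g ^ 2 := le_trans (by gcongr; norm_num) t3
  have p1 : μA / θ ≤ 1 / g ^ 2 := by gcongr; linarith
  have p2 : μB / θ ≤ 1 / g ^ 2 := by gcongr; linarith
  have p3 : f / g ≤ 1 / g ^ 2 := by rw [div_le_div_iff₀ hg hg20]; nlinarith
  have p4 : 1 / (f * g) ≤ 1 / g ^ 2 := by gcongr; nlinarith
  have q1 : 0 ≤ μA / θ := by positivity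
  have q2 : 0 ≤ μB / θ := by positivity
  have q3 : 0 ≤ f / g := by positivity
  have q4 : 0 ≤ 1 / (f * g) := by positivity
  have r1 : 16 * (1 / g ^ 2) ≤ κ / g ^ 2 := by
    rw [mul_one_div]; gcongr; linarith
  refine detect_scale E g κ (8 * (μA / θ + f / g)) (8 * (μB / θ + 1 / (f * g))) hg hg1
    (by linarith) hk (by positivity) (by positivity) (by linarith) (by linarith) ?_ w W hW2 rfl w0
    ?_ ?_ ?_ ?_ ?_ ?_ ?_ ?_ ?_ ?_ ?_ ?_ ?_ ?_ ?_ ?_
  · have s1 : μA / θ * (μB / θ) ≤ 3 * Λ / g ^ 3 := by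
      rw [div_mul_div_comm, div_le_div_iff₀ (by positivity) (by positivity)]
      have : μA * μB * g * g ^ 2 ≤ 3 * Λ * θ * θ := by gcongr; linarith
      nlinarith
    have s2 : μA / θ * (1 / (f * g)) ≤ 2 / g ^ 3 := by
      calc _ ≤ 2 * f / g ^ 2 * (1 / (f * g)) := by gcongr; linarith
        _ = _ := by field_simp
    have s3 : f / g * (μB / θ) ≤ 2 / g ^ 3 := by
      calc _ ≤ f / g * (2 / f / g ^ 2) := by gcongr; linarith
        _ = _ := by field_simp
    have s4 : f / g * (1 / (f * g)) ≤ 1 / g ^ 3 := by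
      calc _ = 1 / (g ^ 2 * 1) := by field_simp
        _ ≤ 1 / (g ^ 2 * g) := by gcongr
        _ = _ := by ring
    have s5 : 64 * (3 * Λ + 5) / g ^ 3 ≤ κ ^ 3 / g ^ 3 := by
      gcongr
      have : κ * 160 * 160 ≤ κ * κ * κ := by gcongr
      nlinarith
    calc _ = 64 * (μA / θ * (μB / θ) + μA / θ * (1 / (f * g)) + f / g * (μB / θ)
          + f / g * (1 / (f * g))) := by ring
      _ ≤ 64 * (3 * Λ / g ^ 3 + 2 / g ^ 3 + 2 / g ^ 3 + 1 / g ^ 3) := by gcongr
      _ = 64 * (3 * Λ + 5) / g ^ 3 := by ring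
      _ ≤ _ := s5
  · intro a b c d h
    obtain ⟨e1, e2, e3, e4, -⟩ := ws a b c d h.ne'
    exact ⟨e2.1, e4, hs _ _ e3.1, (hM a d e1).1.1⟩
  · intro a b c d
    by_cases hw : w a b c d = 0
    · rw [hw]; positivity
    obtain ⟨e1, e2, e3, e4, e5⟩ := ws a b c d hw
    have h1 := hmin _ _ e2.1
    have h2 := hmin _ _ e3.1
    rw [e5]
    calc _ ≤ κ / (g ^ 2 * g ^ 2) := by gcongr <;> linarith
      _ = _ := by ring
  · intro a b c
    refine le_trans ?_ t3
    have : ∀ d, w a b c d ≤ ind (M a d) / deg E a / γ := by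
      intro d
      by_cases hw : w a b c d = 0
      · rw [hw]; exact div_nonneg (div_nonneg (ind_nonneg _) (dn _)) hγ.le
      obtain ⟨e1, e2, e3, e4, e5⟩ := ws a b c d hw
      have h1 := hmin _ _ e2.1
      have h2 := hmin _ _ e3.1
      have h3 := deg_pos_of_adj e2.1
      rw [e5, ind_pos e1, div_div]
      gcongr
    refine (av_le_av this).trans ?_
    simp only [av_div]
    gcongr
    exact mul_div_le_of (by norm_num) (dn a) (mA a)
  · intro a b d
    refine (wc a b d).trans (le_trans ?_ t3')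
    by_cases h : M a d ∧ E a b ∧ Sim E (1 / 16) b d
    · rw [ind_pos h]; exact one_div_le_one_div_of_le hγ (hmin _ _ h.2.1)
    · rw [ind_neg h, zero_div]; positivity
  · intro a c d
    refine (wb a c d).trans (le_trans ?_ t3')
    by_cases h : M a d ∧ E d c ∧ Sim E (1 / 16) c a
    · rw [ind_pos h]; exact one_div_le_one_div_of_le hγ (hmin _ _ h.2.1)
    · rw [ind_neg h, zero_div]; positivity
  · intro b c d
    refine le_trans ?_ t3
    have : ∀ a, w a b c d ≤ ind (M a d) / deg E d / γ := by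
      intro a
      by_cases hw : w a b c d = 0
      · rw [hw]; exact div_nonneg (div_nonneg (ind_nonneg _) (dn _)) hγ.le
      obtain ⟨e1, e2, e3, e4, e5⟩ := ws a b c d hw
      have h1 := hmin _ _ e2.1
      have h2 := hmin _ _ e3.1
      have h3 := deg_pos_of_adj e3.1
      rw [e5, ind_pos e1, div_div, mul_comm (deg E a)]
      gcongr
    refine (av_le_av this).trans ?_
    simp only [av_div]
    gcongr
    exact mul_div_le_of (by norm_num) (dn d) (mB d)
  · intro a b
    refine (Mab a b).trans ?_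
    linarith [ind_le_one (E a b)]
  · intro a c
    rw [av_comm]
    refine (av_le_av fun d => wb a c d).trans ?_
    have h1 : ∀ d, ind (M a d ∧ E d c ∧ Sim E (1 / 16) c a) / deg E d
        ≤ 2 * f ^ 2 * (ind (M a d) / deg E a) := by
      intro d
      by_cases h : M a d ∧ E d c ∧ Sim E (1 / 16) c a
      · obtain ⟨e1, -, e3⟩ := hM a d h.1
        rw [ind_pos h, ind_pos h.1, mul_one_div, div_le_div_iff₀ e1.2.2.1 e1.2.1]
        linarith
      · rw [ind_neg h, zero_div]
        exact mul_nonneg (by positivity) (div_nonneg (ind_nonneg _) (dn _))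
    refine (av_le_av h1).trans ?_
    rw [av_mul_left, av_div]
    have h2 := mul_div_le_of (by norm_num) (dn a) (mA a)
    calc _ ≤ 2 * f ^ 2 * 2 := by gcongr
      _ ≤ 64 * f ^ 2 := by nlinarith
      _ = 8 * (0 + f / g) * (8 * (0 + f / g)) * g ^ 2 := by field_simp; ring
      _ ≤ _ := by gcongr
  · intro a d
    refine (wbc a d).trans ?_
    linarith [ind_le_one (M a d)]
  · intro b c
    have h1 : ∀ a d, w a b c d ≤ 2 * (ind (E b a) / deg E b * (ind (E c d) / deg E c)) := by
      intro a d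
      by_cases hw : w a b c d = 0
      · rw [hw]
        exact mul_nonneg (by norm_num) (mul_nonneg (div_nonneg (ind_nonneg _) (dn _))
          (div_nonneg (ind_nonneg _) (dn _)))
      obtain ⟨e1, e2, e3, e4, e5⟩ := ws a b c d hw
      have d1 := deg_pos_of_adj e2.1
      have d2 := deg_pos_of_adj e3.1
      have d3 := deg_pos_of_adj e4
      have d4 := deg_pos_of_adj (hs _ _ e4)
      have l1 := e2.2.deg_le
      have l2 := e3.2.deg_le
      rw [e5, ind_pos (hs _ _ e2.1), ind_pos (hs _ _ e3.1), div_mul_div_comm, one_mul,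
        mul_one_div, div_le_div_iff₀ (mul_pos d1 d2) (mul_pos d4 d3)]
      have : 15 * deg E b * (15 * deg E c) ≤ 16 * deg E d * (16 * deg E a) := by gcongr
      nlinarith [mul_pos d1 d2]
    refine (av_le_av fun a => av_le_av fun d => h1 a d).trans ?_
    simp only [av_mul_left, av_mul_right, av_div]
    have h2 : av (fun a => ind (E b a)) / deg E b ≤ 1 :=
      mul_div_le_of zero_le_one (dn b) (by rw [one_mul]; exact le_rfl)
    have h3 : av (fun a => ind (E c a)) / deg E c ≤ 1 :=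
      mul_div_le_of zero_le_one (dn c) (by rw [one_mul]; exact le_rfl)
    have h4 : 0 ≤ av (fun a => ind (E c a)) / deg E c := div_nonneg (av_ind_nonneg _) (dn c)
    have := mul_le_one₀ h2 h4 h3
    linarith
  · intro b d
    refine (av_le_av fun a => wc a b d).trans ?_
    have h1 : ∀ a, ind (M a d ∧ E a b ∧ Sim E (1 / 16) b d) / deg E a
        ≤ 1 / f ^ 2 * (ind (M a d) / deg E d) := by
      intro a
      by_cases h : M a d ∧ E a b ∧ Sim E (1 / 16) b d
      · obtain ⟨e1, e2, -⟩ := hM a d h.1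
        rw [ind_pos h, ind_pos h.1, div_mul_div_comm, one_mul]
        exact one_div_le_one_div_of_le (mul_pos (by positivity) e1.2.2.1) e2
      · rw [ind_neg h, zero_div]
        exact mul_nonneg (by positivity) (div_nonneg (ind_nonneg _) (dn _))
    refine (av_le_av h1).trans ?_
    rw [av_mul_left, av_div]
    have h2 := mul_div_le_of (by norm_num) (dn d) (mB d)
    calc _ ≤ 1 / f ^ 2 * 2 := by gcongr
      _ ≤ 1 / f ^ 2 * 64 := by gcongr; norm_num
      _ = 8 * (0 + 1 / (f * g)) * (8 * (0 + 1 / (f * g))) * g ^ 2 := by field_simp; ring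
      _ ≤ _ := by gcongr
  · intro c d
    refine (Mcd c d).trans ?_
    linarith [ind_le_one (E d c)]
  · intro a
    rw [← av_rot3 (fun d b c => w a b c d)]
    refine ((av_le_av fun d => wbc a d).trans (hA a)).trans ?_
    calc μA ≤ 4 * μA := by linarith
      _ = 8 * (μA / θ + 0) * (θ / 2) := by field_simp; ring
      _ ≤ _ := by gcongr
  · intro b
    have h1 : av (fun a => av (fun c => av (fun d => w a b c d))) ≤ 2 * deg E b := by
      refine (av_le_av fun a => Mab a b).trans ?_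
      rw [av_mul_left]
      gcongr
      exact av_le_av fun a => ind_mono (hs _ _)
    have h2 : av (fun a => av (fun c => av (fun d => w a b c d))) * deg E b
        ≤ 16 / 15 / f ^ 2 * θ := by
      rw [← hθ, ← av_mul_left, ← av_mul_right]
      refine av_le_av fun a => ?_
      rw [av_comm, ← av_mul_left, ← av_mul_right]
      refine av_le_av fun d => (mul_le_mul_of_nonneg_right (wc a b d) (dn b)).trans ?_
      by_cases h : M a d ∧ E a b ∧ Sim E (1 / 16) b d
      · obtain ⟨e1, e2, -⟩ := hM a d h.1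
        have l1 := h.2.2.deg_le
        rw [ind_pos h, ind_pos h.1, mul_one, div_mul_eq_mul_div, one_mul,
          div_le_div_iff₀ e1.2.1 (by positivity)]
        nlinarith [sq_nonneg f]
      · rw [ind_neg h, zero_div, zero_mul]
        exact mul_nonneg (by positivity) (ind_nonneg _)
    have h3 : 0 ≤ av (fun a => av (fun c => av (fun d => w a b c d))) :=
      av_nonneg fun _ => av_nonneg fun _ => av_nonneg fun _ => w0 _ _ _ _
    have h4 : 8 * (0 + 1 / (f * g)) * (θ / 2) ≤ 8 * (μB / θ + 1 / (f * g)) * W := by gcongr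
    refine le_trans ?_ h4
    refine abs_le_of_sq_le_sq' ?_ (by positivity) |>.2
    have h5 : (8 * (0 + 1 / (f * g)) * (θ / 2)) ^ 2 = 16 / f ^ 2 * θ * (θ / g ^ 2) := by
      field_simp; ring
    have h6 : 2 ≤ θ / g ^ 2 := by rw [le_div_iff₀ hg20]; linarith
    have h7 : 16 / f ^ 2 * θ * 2 ≤ 16 / f ^ 2 * θ * (θ / g ^ 2) := by gcongr
    have h8 : 16 / 15 / f ^ 2 * θ = 1 / 15 * (16 / f ^ 2 * θ) := by ring
    have h9 : 0 ≤ 16 / f ^ 2 * θ := by positivity
    rw [h5]
    nlinarith
  · intro c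
    have h1 : av (fun a => av (fun b => av (fun d => w a b c d))) ≤ 2 * deg E c := by
      rw [← av_rot3 (fun d a b => w a b c d)]
      refine (av_le_av fun d => Mcd c d).trans ?_
      rw [av_mul_left]
      gcongr
      exact av_le_av fun a => ind_mono (hs _ _)
    have h2 : av (fun a => av (fun b => av (fun d => w a b c d))) * deg E c
        ≤ 32 / 15 * f ^ 2 * θ := by
      rw [← hθ, ← av_mul_left, ← av_mul_right]
      refine av_le_av fun a => ?_
      rw [av_comm, ← av_mul_left, ← av_mul_right]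
      refine av_le_av fun d => (mul_le_mul_of_nonneg_right (wb a c d) (dn c)).trans ?_
      by_cases h : M a d ∧ E d c ∧ Sim E (1 / 16) c a
      · obtain ⟨e1, -, e3⟩ := hM a d h.1
        have l1 := h.2.2.deg_le
        rw [ind_pos h, ind_pos h.1, mul_one, div_mul_eq_mul_div, one_mul,
          div_le_iff₀ e1.2.2.1]
        nlinarith
      · rw [ind_neg h, zero_div, zero_mul]
        exact mul_nonneg (by positivity) (ind_nonneg _)
    have h3 : 0 ≤ av (fun a => av (fun b => av (fun d => w a b c d))) :=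
      av_nonneg fun _ => av_nonneg fun _ => av_nonneg fun _ => w0 _ _ _ _
    have h4 : 8 * (0 + f / g) * (θ / 2) ≤ 8 * (μA / θ + f / g) * W := by gcongr
    refine le_trans ?_ h4
    refine abs_le_of_sq_le_sq' ?_ (by positivity) |>.2
    have h5 : (8 * (0 + f / g) * (θ / 2)) ^ 2 = 16 * f ^ 2 * θ * (θ / g ^ 2) := by
      field_simp; ring
    have h6 : 2 ≤ θ / g ^ 2 := by rw [le_div_iff₀ hg20]; linarith
    have h7 : 16 * f ^ 2 * θ * 2 ≤ 16 * f ^ 2 * θ * (θ / g ^ 2) := by gcongr
    have h9 : 0 ≤ f ^ 2 * θ := by positivity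
    rw [h5]
    nlinarith
  · intro d
    refine ((av_le_av fun a => wbc a d).trans (hB d)).trans ?_
    calc μB ≤ 4 * μB := by linarith
      _ = 8 * (μB / θ + 0) * (θ / 2) := by field_simp; ring
      _ ≤ _ := by gcongr

lemma case2_mid {k : ℕ} (hs : ∀ a b, E a b → E b a) (γ g : ℝ) (L : ℕ) (hγ : 0 < γ)
    (hg : 0 < g) (hγ1 : γ ≤ 1) (hL : 4 ≤ γ ^ 2 * 2 ^ L)
    (hgγ : 160 * ((L : ℝ) + 1) ^ 2 * g ^ 2 ≤ γ)
    (hk : 64 * (30 * (160 * ((L : ℝ) + 1)) / g) ^ 3 ≤ k)
    (hmin : ∀ a b, E a b → γ ≤ deg E a)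
    (R : V → V → Prop) (hR : ∀ a d, R a d → Miss E a d) (θ0 xA xB : ℝ) (hθ0 : γ ≤ θ0)
    (h3 : θ0 ≤ 3 * av (fun a => av (fun d => ind (R a d))))
    (hA : ∀ a, av (fun d => ind (R a d)) ≤ xA) (hB : ∀ d, av (fun a => ind (R a d)) ≤ xB)
    (hA0 : 0 ≤ xA) (hB0 : 0 ≤ xB) (hAB : xA * xB * g ≤ θ0) :
    2 / 3 ≤ av (fun ω : Fin k → V => ind (Rej E ω)) := by
  have hΛ : (1 : ℝ) ≤ L + 1 := by have : (0 : ℝ) ≤ L := Nat.cast_nonneg _; linarith
  have hγd : ∀ a, 0 < deg E a → γ ≤ deg E a := fun a h => by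
    obtain ⟨b, hb⟩ := exists_of_av_ind_pos h
    exact hmin a b hb
  obtain ⟨φ, hφ, h1⟩ := dyadic (fun p : V × V => ind (R p.1 p.2))
    (fun p => deg E p.1 / deg E p.2) γ hγ L (fun _ => ind_nonneg _) (by
      intro p hp
      obtain ⟨-, d1, d2, -⟩ := hR _ _ (of_ind_ne hp)
      have e1 := hγd _ d1
      have e2 := hγd _ d2
      have e3 := deg_le_one (E := E) p.1
      have e4 := deg_le_one (E := E) p.2
      constructor
      · rw [le_div_iff₀ d2]; nlinarith
      · rw [div_le_iff₀ d2]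
        have : γ * 2 ^ L * γ ≤ γ * 2 ^ L * deg E p.2 := by gcongr
        nlinarith)
  rw [av_prod, av_prod] at h1
  have hφ0 : 0 < φ := by linarith
  let M : V → V → Prop := fun a d => R a d ∧ φ ≤ deg E a / deg E d ∧ deg E a / deg E d < 2 * φ
  set θ := av (fun a => av (fun d => ind (M a d))) with hθ
  have h2 : θ0 ≤ 3 * (L + 1) * θ := by
    have : av (fun a => av (fun d => ind (R a d) *
        ind (φ ≤ deg E a / deg E d ∧ deg E a / deg E d < 2 * φ))) = θ :=
      av_congr fun a => av_congr fun d => (ind_and _ _).symm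
    simp only [this] at h1
    linarith
  have hΛ2 : (L : ℝ) + 1 ≤ (L + 1) ^ 2 := by nlinarith
  have hg20 : 0 < g ^ 2 := by positivity
  have hg2 : g ^ 2 ≤ γ := by nlinarith
  have hθg : 2 * g ^ 2 ≤ θ := by
    have : 3 * (L + 1) * (2 * g ^ 2) ≤ 3 * (L + 1) * θ := by nlinarith
    exact le_of_mul_le_mul_left this (by linarith)
  set f := Real.sqrt φ with hf
  have hff : f ^ 2 = φ := Real.sq_sqrt hφ0.le
  have hf0 : 0 < f := Real.sqrt_pos.mpr hφ0
  have hM : ∀ a d, M a d → Miss E a d ∧ f ^ 2 * deg E d ≤ deg E a ∧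
      deg E a < 2 * f ^ 2 * deg E d := by
    rintro a d ⟨e1, e2, e3⟩
    have d2 := (hR a d e1).2.2.1
    rw [le_div_iff₀ d2] at e2
    rw [div_lt_iff₀ d2] at e3
    rw [hff]
    exact ⟨hR a d e1, e2, e3⟩
  have hφγ : φ * γ ≤ 1 := by
    have : 0 < θ := by linarith
    obtain ⟨a, ha⟩ := exists_pos_of_av_pos this
    obtain ⟨d, hd⟩ := exists_of_av_ind_pos ha
    obtain ⟨e1, e2, -⟩ := hM a d hd
    have e3 := hγd _ e1.2.2.1
    have e4 := deg_le_one (E := E) a
    rw [hff] at e2
    nlinarith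
  have hgf : g ≤ f := abs_le_of_sq_le_sq' (by linarith) hf0.le |>.2
  have hfg : f * g ≤ 1 := by
    refine abs_le_of_sq_le_sq' ?_ zero_le_one |>.2
    rw [mul_pow, hff]; nlinarith
  refine case2_core hs γ g (L + 1) f (min xA (min 1 (2 * f))) (min xB (min 1 (2 / f))) hγ hg hΛ
    hγ1 hg2 hk hmin M hM hf0 hgf hfg θ rfl hθg ?_ ?_ (by positivity) (by positivity)
    ((min_le_right _ _).trans (min_le_left _ _)) ((min_le_right _ _).trans (min_le_left _ _))
    ((min_le_right _ _).trans (min_le_right _ _)) ((min_le_right _ _).trans (min_le_right _ _)) ?_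
  · intro a
    have e0 := av_ind_nonneg (fun d => M a d)
    have e1 := av_ind_le_one (fun d => M a d)
    refine le_min ((av_le_av fun d => ind_mono And.left).trans (hA a)) (le_min e1 ?_)
    rcases e0.eq_or_lt with h | h
    · rw [← h]; positivity
    obtain ⟨d, hd⟩ := exists_of_av_ind_pos h
    obtain ⟨-, -, e3⟩ := hM a d hd
    have e4 : av (fun d => ind (M a d)) ≤ 2 * deg E a :=
      (av_le_av fun d => ind_mono fun h => (hM a d h).1).trans (miss_deg hs a)
    have e5 := deg_le_one (E := E) d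
    refine abs_le_of_sq_le_sq' ?_ (by positivity) |>.2
    nlinarith [sq_nonneg f]
  · intro d
    have e0 := av_ind_nonneg (fun a => M a d)
    have e1 := av_ind_le_one (fun a => M a d)
    refine le_min ((av_le_av fun a => ind_mono And.left).trans (hB d)) (le_min e1 ?_)
    rcases e0.eq_or_lt with h | h
    · rw [← h]; positivity
    obtain ⟨a, ha⟩ := exists_of_av_ind_pos h
    obtain ⟨-, e3, -⟩ := hM a d ha
    have e4 : av (fun a => ind (M a d)) ≤ 2 * deg E d :=
      (av_le_av fun a => ind_mono fun h => (hM a d h).1.symm hs).trans (miss_deg hs d)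
    have e5 := deg_le_one (E := E) a
    refine abs_le_of_sq_le_sq' ?_ (by positivity) |>.2
    rw [div_pow, le_div_iff₀ (by positivity)]
    nlinarith [sq_nonneg f]
  · refine le_trans ?_ (hAB.trans h2)
    gcongr
    · exact min_le_left _ _
    · exact min_le_left _ _

lemma case2 {k : ℕ} (hs : ∀ a b, E a b → E b a) (γ g : ℝ) (L : ℕ) (hγ : 0 < γ)
    (hg : 0 < g) (hγ1 : γ ≤ 1) (hL : 4 ≤ γ ^ 2 * 2 ^ L)
    (hgγ : 160 * ((L : ℝ) + 1) ^ 2 * g ^ 2 ≤ γ)
    (hk : 64 * (30 * (160 * ((L : ℝ) + 1)) / g) ^ 3 ≤ k)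
    (hmin : ∀ a b, E a b → γ ≤ deg E a)
    (hθ0 : γ ≤ av (fun a => av (fun d => ind (Miss E a d)))) :
    2 / 3 ≤ av (fun ω : Fin k → V => ind (Rej E ω)) := by
  set θ0 := av (fun a => av (fun d => ind (Miss E a d))) with hθ
  let m : V → ℝ := fun a => av (fun d => ind (Miss E a d))
  have hΛ : (1 : ℝ) ≤ L + 1 := by have : (0 : ℝ) ≤ L := Nat.cast_nonneg _; linarith
  have hΛ2 : (1 : ℝ) ≤ (L + 1) ^ 2 := by nlinarith
  have hg20 : 0 < g ^ 2 := by positivity
  have hg2 : g ^ 2 ≤ γ := by nlinarith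
  have hg1 : g ≤ 1 := by nlinarith
  have hmk : av (fun a => ind (g < m a)) ≤ θ0 / g := by
    rw [hθ, ← av_div]
    refine av_le_av fun a => ?_
    by_cases h : g < m a
    · rw [ind_pos h, le_div_iff₀ hg]; linarith
    · rw [ind_neg h]; exact div_nonneg (av_ind_nonneg _) hg.le
  have hsum : θ0 ≤ av (fun a => av (fun d => ind (Miss E a d ∧ m a ≤ g ∧ m d ≤ g)))
      + av (fun a => av (fun d => ind (Miss E a d ∧ g < m a)))
      + av (fun a => av (fun d => ind (Miss E a d ∧ g < m d))) := by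
    rw [← av_add, ← av_add]
    refine av_le_av fun a => ?_
    rw [← av_add, ← av_add]
    refine av_le_av fun d => ?_
    refine le_trans (ind_mono ?_) ((ind_or_le _ _).trans (add_le_add (ind_or_le _ _) le_rfl))
    intro h
    by_cases h1 : g < m a
    · exact Or.inl (Or.inr ⟨h, h1⟩)
    by_cases h2 : g < m d
    · exact Or.inr ⟨h, h2⟩
    exact Or.inl (Or.inl ⟨h, not_lt.mp h1, not_lt.mp h2⟩)
  have hθ1 : 0 ≤ θ0 / g := div_nonneg (by linarith) hg.le
  by_cases c1 : θ0 ≤ 3 * av (fun a => av (fun d => ind (Miss E a d ∧ m a ≤ g ∧ m d ≤ g)))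
  · refine case2_mid hs γ g L hγ hg hγ1 hL hgγ hk hmin _ (fun a d h => h.1) θ0 g g hθ0 c1
      (fun a => ?_) (fun d => ?_) hg.le hg.le (by nlinarith)
    · by_cases h : m a ≤ g
      · exact le_trans (av_le_av fun d => ind_mono And.left) h
      · exact (av_le_zero fun d => ind_neg fun h' => h h'.2.1).trans hg.le
    · by_cases h : m d ≤ g
      · exact le_trans (av_le_av fun a => ind_mono fun h => h.1.symm hs) h
      · exact (av_le_zero fun a => ind_neg fun h' => h h'.2.2).trans hg.le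
  by_cases c2 : θ0 ≤ 3 * av (fun a => av (fun d => ind (Miss E a d ∧ g < m a)))
  · refine case2_mid hs γ g L hγ hg hγ1 hL hgγ hk hmin _ (fun a d h => h.1) θ0 1 (θ0 / g) hθ0 c2
      (fun a => av_ind_le_one _) (fun d => ?_) zero_le_one hθ1 (by field_simp; rfl)
    exact le_trans (av_le_av fun a => ind_mono And.right) hmk
  · refine case2_mid hs γ g L hγ hg hγ1 hL hgγ hk hmin (fun a d => Miss E a d ∧ g < m d)
      (fun a d h => h.1) θ0 (θ0 / g) 1 hθ0 (by linarith)
      (fun a => ?_) (fun d => av_ind_le_one _) hθ1 zero_le_one (by field_simp; rfl)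
    exact le_trans (av_le_av fun a => ind_mono And.right) hmk

end Pool.Agent.Lib.MP_8d7d3d_lc
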