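import Pool.Agent.Lib.MP_8d7d3d_lc.Case2

/-! Many vertices similar to most of their neighbours give detectable triangles. -/

namespace Pool.Agent.Lib.MP_8d7d3d_lc

variable {V : Type} [Fintype V] [Nonempty V] {E : V → V → Prop}

/-- a vertex similar to most of its neighbours -/
def Loop (E : V → V → Prop) (v : V) : Prop :=
  7 / 8 * deg E v ≤ av (fun y => ind (E v y ∧ Sim E (1 / 16) v y))

lemma case3 {k : ℕ} (hs : ∀ a b, E a b → E b a) (hirr : ∀ a, ¬ E a a) (γ g κ : ℝ) (hγ : 0 < γ)
    (hg : 0 < g) (hγ1 : γ ≤ 1) (hκ : 4 ≤ κ) (hg2 : 2 * g ^ 2 ≤ γ)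
    (hk : 64 * (30 * κ / g) ^ 3 ≤ k) (hmin : ∀ a b, E a b → γ ≤ deg E a)
    (hΘ : γ ≤ av (fun v => ind (Loop E v) * deg E v)) :
    2 / 3 ≤ av (fun ω : Fin k → V => ind (Rej E ω)) := by
  set Θ := av (fun v => ind (Loop E v) * deg E v) with hΘd
  have dn : ∀ a, 0 ≤ deg E a := deg_nonneg
  have hg20 : 0 < g ^ 2 := by positivity
  have hg1 : g ≤ 1 := by nlinarith
  let Y : V → V → Prop := fun v y => E v y ∧ Sim E (1 / 16) v y
  let t : V → V → V → V → ℝ := fun v a b c =>
    ind (Loop E v ∧ Y v a ∧ Y v b ∧ Y v c ∧ E a b ∧ E c b ∧ E c a) / deg E v ^ 2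
  have t0 : ∀ v a b c, 0 ≤ t v a b c := fun v a b c => div_nonneg (ind_nonneg _) (sq_nonneg _)
  let q : V → V → ℝ := fun v y => ind (E v y) / deg E v
  have q0 : ∀ v y, 0 ≤ q v y := fun v y => div_nonneg (ind_nonneg _) (dn _)
  have q1 : ∀ v, av (fun y => q v y) ≤ 1 := by
    intro v
    simp only [q]
    rw [av_div]
    exact mul_div_le_of zero_le_one (dn v) (by rw [one_mul]; exact le_rfl)
  have q2 : ∀ v y, q v y ≤ 1 / deg E v := fun v y =>
    div_le_div_of_nonneg_right (ind_le_one _) (dn v)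
  have q3 : ∀ v y, q v y ≤ 1 / γ := by
    intro v y
    by_cases h : E v y
    · exact (q2 v y).trans (one_div_le_one_div_of_le hγ (hmin _ _ h))
    · simp only [q]; rw [ind_neg h, zero_div]; positivity
  let P : V → V → ℝ := fun v a => ind (Loop E v ∧ Y v a)
  have P0 : ∀ v a, 0 ≤ P v a := fun v a => ind_nonneg _
  have maj : ∀ (v x y z : V) (p : Prop), (p → Loop E v ∧ Y v x ∧ Y v y ∧ Y v z) →
      ind p / deg E v ^ 2 ≤ P v x * q v y * q v z := by
    intro v x y z p hp
    have : P v x * q v y * q v z = ind ((Loop E v ∧ Y v x) ∧ E v y ∧ E v z) / deg E v ^ 2 := by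
      simp only [P, q, ind_and]; ring
    rw [this]
    refine div_le_div_of_nonneg_right (ind_mono fun h => ?_) (sq_nonneg _)
    obtain ⟨h1, h2, h3, h4⟩ := hp h
    exact ⟨⟨h1, h2⟩, h3.1, h4.1⟩
  have ta : ∀ v a b c, t v a b c ≤ P v a * q v b * q v c := fun v a b c =>
    maj v a b c _ fun h => ⟨h.1, h.2.1, h.2.2.1, h.2.2.2.1⟩
  have ta' : ∀ v a b c, t v a b c ≤ P v a * q v c * q v b := fun v a b c =>
    maj v a c b _ fun h => ⟨h.1, h.2.1, h.2.2.2.1, h.2.2.1⟩
  have tb : ∀ v a b c, t v a b c ≤ P v b * q v c * q v a := fun v a b c =>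
    maj v b c a _ fun h => ⟨h.1, h.2.2.1, h.2.2.2.1, h.2.1⟩
  have tc : ∀ v a b c, t v a b c ≤ P v c * q v a * q v b := fun v a b c =>
    maj v c a b _ fun h => ⟨h.1, h.2.2.2.1, h.2.1, h.2.2.1⟩
  have F : ∀ a b, av (fun v => P v a * q v b) ≤ 2 := by
    intro a b
    have : ∀ v, P v a * q v b ≤ 2 * q a v := by
      intro v
      by_cases h : Loop E v ∧ Y v a
      · have d1 := deg_pos_of_adj h.2.1
        have d2 := deg_pos_of_adj (hs _ _ h.2.1)
        have l := h.2.2.symm.deg_le
        simp only [P]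
        rw [ind_pos h, one_mul]
        refine (q2 v b).trans ?_
        simp only [q]
        rw [ind_pos (hs _ _ h.2.1), mul_one_div, div_le_div_iff₀ d1 d2]
        linarith
      · simp only [P]; rw [ind_neg h, zero_mul]; linarith [q0 a v]
    refine (av_le_av this).trans ?_
    rw [av_mul_left]; linarith [q1 a]
  have G1 : ∀ (x y : V) (s : V → V → ℝ), (∀ v z, s v z ≤ P v x * q v y * q v z) →
      av (fun z => av (fun v => s v z)) ≤ κ := by
    intro x y s h
    rw [av_comm]
    refine le_trans (av_le_av fun v => ?_) ((F x y).trans (by linarith))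
    refine (av_le_av fun z => h v z).trans ?_
    rw [av_mul_left]
    exact mul_le_of_le_one_right (mul_nonneg (P0 _ _) (q0 _ _)) (q1 v)
  let w : V → V → V → ℝ := fun a b c => av (fun v => t v a b c)
  set W := av (fun a => av (fun b => av (fun c => w a b c))) with hW
  have hW1 : Θ / 2 ≤ W := by
    rw [hW, ← av_rot4 (fun v a b c => t v a b c), hΘd, ← av_div]
    refine av_le_av fun v => ?_
    by_cases hv : Loop E v
    swap
    · rw [ind_neg hv, zero_mul, zero_div]
      exact av_nonneg fun _ => av_nonneg fun _ => av_nonneg fun _ => t0 _ _ _ _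
    rcases (dn v).eq_or_lt with hd | hd
    · rw [← hd, mul_zero, zero_div]
      exact av_nonneg fun _ => av_nonneg fun _ => av_nonneg fun _ => t0 _ _ _ _
    have k1 : ∀ a, Y v a → 13 / 16 * deg E v ≤ av (fun y => ind (Y v y ∧ E a y)) := by
      intro a ha
      have h1 := av_inter (fun y => Y v y) (fun y => E v y ∧ E a y) (fun y => E v y)
        (fun _ h => h.1) (fun _ h => h.1)
      change _ + cod E v a ≤ deg E v + _ at h1
      have h2 := ha.2.1
      have h3 : av (fun y => ind (Y v y ∧ E v y ∧ E a y)) ≤ av (fun y => ind (Y v y ∧ E a y)) :=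
        av_le_av fun _ => ind_mono fun h => ⟨h.1, h.2.2⟩
      unfold Loop at hv
      linarith
    have k2 : ∀ a b, 3 / 4 / deg E v * ind (Y v a) * ind (Y v b ∧ E a b)
        ≤ av (fun c => t v a b c) := by
      intro a b
      by_cases ha : Y v a
      swap
      · rw [ind_neg ha, mul_zero, zero_mul]; exact av_nonneg fun _ => t0 _ _ _ _
      by_cases hb : Y v b ∧ E a b
      swap
      · rw [ind_neg hb, mul_zero]; exact av_nonneg fun _ => t0 _ _ _ _
      have h1 := av_inter (fun y => Y v y ∧ E a y) (fun y => E v y ∧ E b y) (fun y => E v y)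
        (fun _ h => h.1.1) (fun _ h => h.1)
      change _ + cod E v b ≤ deg E v + _ at h1
      have h2 := hb.1.2.1
      have h3 := k1 a ha
      have h4 : av (fun y => ind ((Y v y ∧ E a y) ∧ E v y ∧ E b y)) / deg E v ^ 2
          ≤ av (fun c => t v a b c) := by
        rw [← av_div]
        refine av_le_av fun c => div_le_div_of_nonneg_right (ind_mono fun h => ?_) (sq_nonneg _)
        exact ⟨hv, ha, hb.1, h.1.1, hb.2, hs _ _ h.2.2, hs _ _ h.1.2⟩
      refine le_trans ?_ h4
      rw [ind_pos ha, ind_pos hb, mul_one, mul_one, div_le_div_iff₀ hd (by positivity)]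
      nlinarith
    have k3 : ∀ a, 3 / 4 * (13 / 16) * ind (Y v a) ≤ av (fun b => av (fun c => t v a b c)) := by
      intro a
      refine le_trans ?_ (av_le_av fun b => k2 a b)
      rw [av_mul_left]
      by_cases ha : Y v a
      · rw [ind_pos ha, mul_one, mul_one, div_mul_eq_mul_div (3 / 4 : ℝ), le_div_iff₀ hd]
        linarith [k1 a ha]
      · rw [ind_neg ha]; simp
    refine le_trans ?_ (av_le_av k3)
    rw [av_mul_left, ind_pos hv]
    unfold Loop at hv
    linarith
  have hW2 : g ^ 2 ≤ W := by linarith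
  have G2 : ∀ (x : V) (s : V → V → V → ℝ), (∀ v y z, s v y z ≤ P v x * q v y * q v z) →
      av (fun y => av (fun z => av (fun v => s v y z))) ≤ κ / g * W := by
    intro x s h
    rw [← av_rot3]
    have h1 : av (fun v => av (fun y => av (fun z => s v y z))) ≤ av (fun v => P v x) := by
      refine av_le_av fun v => (av_le_av fun y => av_le_av fun z => h v y z).trans ?_
      simp only [av_mul_left, av_mul_right]
      have := mul_le_one₀ (q1 v) (av_nonneg (q0 v)) (q1 v)
      rw [mul_assoc]
      exact mul_le_of_le_one_right (P0 _ _) this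
    refine h1.trans ?_
    have h2 : av (fun v => P v x) ≤ deg E x :=
      av_le_av fun v => ind_mono fun h => hs _ _ h.2.1
    have h3 : av (fun v => P v x) * deg E x ≤ 16 / 15 * Θ := by
      rw [hΘd, ← av_mul_left, ← av_mul_right]
      refine av_le_av fun v => ?_
      by_cases h : Loop E v ∧ Y v x
      · simp only [P]
        rw [ind_pos h, ind_pos h.1]
        linarith [h.2.2.symm.deg_le]
      · simp only [P]
        rw [ind_neg h, zero_mul]
        exact mul_nonneg (by norm_num) (mul_nonneg (ind_nonneg _) (dn _))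
    have h4 : 0 ≤ av (fun v => P v x) := av_nonneg fun v => P0 _ _
    have h5 : 4 / g * (Θ / 2) ≤ κ / g * W := by gcongr; linarith
    refine le_trans ?_ h5
    have hΘ0 : 0 < Θ := by linarith
    refine abs_le_of_sq_le_sq' ?_ (by positivity) |>.2
    have h6 : (4 / g * (Θ / 2)) ^ 2 = 4 * Θ * (Θ / g ^ 2) := by field_simp; ring
    have h7 : 1 ≤ Θ / g ^ 2 := by rw [le_div_iff₀ hg20]; linarith
    rw [h6]
    nlinarith
  refine detect_tri E hirr g κ hg hg1 (by linarith) hk w W hW2 rfl
    (fun a b c => av_nonneg fun v => t0 _ _ _ _) ?_ ?_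
    (fun a b => G1 a b (fun v c => t v a b c) fun v c => ta v a b c)
    (fun a c => G1 a c (fun v b => t v a b c) fun v b => ta' v a b c)
    (fun b c => G1 b c (fun v a => t v a b c) fun v a => tb v a b c)
    (fun a => G2 a (fun v b c => t v a b c) fun v b c => ta v a b c) ?_
    (fun c => G2 c (fun v a b => t v a b c) fun v a b => tc v a b c)
  · intro a b c h
    obtain ⟨v, hv⟩ := exists_pos_of_av_pos h
    exact (of_ind_ne (div_ne_zero_iff.mp hv.ne').1).2.2.2.2
  · intro a b c
    have h1 : w a b c ≤ av (fun v => P v a * q v b * (1 / γ)) :=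
      av_le_av fun v => (ta v a b c).trans
        (mul_le_mul_of_nonneg_left (q3 v c) (mul_nonneg (P0 _ _) (q0 _ _)))
    rw [av_mul_right] at h1
    refine h1.trans ?_
    calc _ ≤ 2 * (1 / γ) := by gcongr; exact F a b
      _ = 2 / γ := by ring
      _ ≤ _ := by gcongr <;> linarith
  · intro b
    rw [av_comm]
    exact G2 b (fun v c a => t v a b c) fun v c a => tb v a b c

end Pool.Agent.Lib.MP_8d7d3d_lc
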