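import Pool.Agent.Lib.MP_8d7d3d_lc.Case1
import Pool.Agent.Lib.MP_8d7d3d_lc.Case3

/-! If all three obstructions are rare, the graph is close to a biclique collection. -/

namespace Pool.Agent.Lib.MP_8d7d3d_lc

variable {V : Type} [Fintype V] [Nonempty V] {E : V → V → Prop}

/-- the biclique collection defined by two labellings -/
def Lab {V α : Type} (f g : V → α) (a b : V) : Prop := f a = g b ∧ g a = f b ∧ f a ≠ g a

omit [Nonempty V] in
lemma close (hs : ∀ a b, E a b → E b a) (p : V → V) :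
    ∃ f g : V → Set V, av (fun a => av (fun b => ind (¬ (E a b ↔ Lab f g a b))))
      ≤ 578 * av (fun b => dis E b (p b)) + 2 * av (fun v => ind (Loop E v) * deg E v)
        + av (fun a => av (fun d => ind (Miss E a d))) := by
  classical
  have dn : ∀ a, 0 ≤ deg E a := deg_nonneg
  let K : V → V → Prop := fun b a => Sim E (1 / 40) (p b) a
  let τ : V → ℝ := fun b => dis E b (p b)
  let bad : V → ℝ := fun a => av (fun b => ind (E a b ∧ ¬ K b a))
  let Nice : V → Prop := fun a => bad a ≤ deg E a / 16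
  let nn : V → ℝ := fun a => av (fun b => ind (E a b ∧ ¬ Nice b))
  let Good : V → Prop := fun a =>
    0 < deg E a ∧ Nice a ∧ τ a ≤ deg E a / 16 ∧ nn a ≤ deg E a / 16 ∧ ¬ Loop E a
  let cls : V → Set V := fun a => {x | Nice x ∧ Sim E (1 / 16) a x}
  let par : V → Set V := fun b =>
    {x | Nice x ∧ ∃ a, Nice a ∧ E b a ∧ K b a ∧ Sim E (1 / 16) a x}
  have tr : ∀ a x c, Nice a → Nice c → Sim E (1 / 16) a x → Sim E (1 / 16) x c →
      Sim E (1 / 16) a c := by
    intro a x c ha hc h1 h2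
    have e1 := cod_tri (E := E) a x c
    have e2 := h1.deg_le
    have e3 := h1.symm.deg_le
    have e4 := h2.deg_le
    have e5 := h2.symm.deg_le
    obtain ⟨h11, h12⟩ := h1
    obtain ⟨h21, h22⟩ := h2
    rcases (dn x).eq_or_lt with hx | hx
    · have := cod_nonneg (E := E) a c
      have := dn a
      have := dn c
      constructor <;> linarith
    have h3 : cod E a c ≤ bad a + bad c
        + av (fun b => ind (K b a ∧ K b c)) := by
      simp only [bad]
      rw [← av_add, ← av_add]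
      refine av_le_av fun b => le_trans (ind_mono ?_)
        ((ind_or_le _ _).trans (add_le_add (ind_or_le _ _) le_rfl))
      rintro ⟨u1, u2⟩
      by_cases k1 : K b a
      · by_cases k2 : K b c
        · exact Or.inr ⟨k1, k2⟩
        · exact Or.inl (Or.inr ⟨u2, k2⟩)
      · exact Or.inl (Or.inl ⟨u1, k1⟩)
    have h4 : 0 < av (fun b => ind (K b a ∧ K b c)) := by
      simp only [Nice] at ha hc
      linarith
    obtain ⟨b, k1, k2⟩ := exists_of_av_ind_pos h4
    exact sim_trans1 k1 k2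
  have pc : ∀ b a, Nice a → E b a → K b a → par b = cls a := by
    intro b a ha hba hk
    ext x
    constructor
    · rintro ⟨hx, a', ha', -, hk', hsim⟩
      exact ⟨hx, tr a a' x ha hx (sim_trans1 hk hk') hsim⟩
    · rintro ⟨hx, hsim⟩
      exact ⟨hx, a, ha, hba, hk, hsim⟩
  have most : ∀ a z, Good a → par a = cls z →
      7 / 8 * deg E a ≤ av (fun y => ind (E a y ∧ Sim E (1 / 16) z y)) := by
    intro a z ha hz
    have h1 : deg E a ≤ τ a + nn a + av (fun y => ind (E a y ∧ Sim E (1 / 16) z y)) := by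
      simp only [τ, nn, dis]
      rw [← av_add, ← av_add]
      refine av_le_av fun y => le_trans (ind_mono ?_)
        ((ind_or_le _ _).trans (add_le_add (ind_or_le _ _) le_rfl))
      intro u
      by_cases k1 : K a y
      · by_cases k2 : Nice y
        · have : y ∈ cls y := ⟨k2, Sim.refl (by norm_num) y⟩
          rw [← pc a y k2 u k1, hz] at this
          exact Or.inr ⟨u, this.2⟩
        · exact Or.inl (Or.inr ⟨u, k2⟩)
      · exact Or.inl (Or.inl ⟨u, k1⟩)
    obtain ⟨-, -, h2, h3, -⟩ := ha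
    linarith
  let f : V → Set V := fun a => if Good a then cls a else ∅
  let g : V → Set V := fun a => if Good a then par a else ∅
  have cA : ∀ a b, E a b → Good a → Good b → K b a → K a b → Lab f g a b := by
    intro a b hab ha hb k1 k2
    simp only [Lab, f, g, if_pos ha, if_pos hb]
    refine ⟨(pc b a ha.2.1 (hs _ _ hab) k1).symm, pc a b hb.2.1 hab k2, fun h => ?_⟩
    exact ha.2.2.2.2 (most a a ha h.symm)
  have cB : ∀ a d, Lab f g a d → ¬ E a d → Miss E a d := by
    rintro a d ⟨h1, h2, h3⟩ had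
    have ha : Good a := by
      by_contra ha
      exact h3 (by simp only [f, g, if_neg ha])
    have hd : Good d := by
      by_contra hd
      apply h3
      rw [h1, h2]
      simp only [f, g, if_neg hd]
    simp only [f, g, if_pos ha, if_pos hd] at h1 h2
    refine ⟨had, ha.1, hd.1, ?_, ?_⟩
    · exact (most a d ha h2).trans (av_le_av fun y => ind_mono fun h => ⟨h.1, h.2.symm⟩)
    · exact (most d a hd h1.symm).trans (av_le_av fun y => ind_mono fun h => ⟨h.1, h.2.symm⟩)
  refine ⟨f, g, ?_⟩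
  set T := av (fun b => dis E b (p b)) with hT
  have s1 : av bad = T := by
    simp only [bad]
    rw [av_comm]
    refine av_congr fun b => av_congr fun a => ind_congr ?_
    exact ⟨fun h => ⟨hs _ _ h.1, h.2⟩, fun h => ⟨hs _ _ h.1, h.2⟩⟩
  have bad0 : ∀ a, 0 ≤ bad a := fun a => av_ind_nonneg _
  have sw : ∀ Q : V → Prop, av (fun a => av (fun b => ind (E a b ∧ Q b)))
      = av (fun b => ind (Q b) * deg E b) := by
    intro Q
    rw [av_comm]
    refine av_congr fun b => ?_
    unfold deg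
    rw [← av_mul_left]
    refine av_congr fun a => ?_
    rw [← ind_and]
    exact ind_congr ⟨fun h => ⟨h.2, hs _ _ h.1⟩, fun h => ⟨hs _ _ h.2, h.1⟩⟩
  have s2 : av nn ≤ 16 * T := by
    simp only [nn]
    rw [sw (fun b => ¬ Nice b), ← s1, ← av_mul_left]
    refine av_le_av fun b => ?_
    by_cases h : Nice b
    · rw [ind_neg (not_not.mpr h)]; linarith [bad0 b]
    · rw [ind_pos h]
      simp only [Nice] at h
      linarith [not_le.mp h]
  have s3 : av (fun a => ind (¬ Good a) * deg E a)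
      ≤ 288 * T + av (fun v => ind (Loop E v) * deg E v) := by
    have : av (fun a => ind (¬ Good a) * deg E a)
        ≤ av (fun a => 16 * bad a + 16 * τ a + 16 * nn a + ind (Loop E a) * deg E a) := by
      refine av_le_av fun a => ?_
      have e1 := bad0 a
      have e2 : 0 ≤ τ a := av_ind_nonneg _
      have e3 : 0 ≤ nn a := av_ind_nonneg _
      have e4 : 0 ≤ ind (Loop E a) * deg E a := mul_nonneg (ind_nonneg _) (dn a)
      by_cases h : Good a
      · rw [ind_neg (not_not.mpr h)]; linarith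
      rw [ind_pos h, one_mul]
      by_contra hc
      push Not at hc
      apply h
      refine ⟨by linarith, ?_, by linarith, by linarith, fun hl => ?_⟩
      · simp only [Nice]; linarith
      · rw [ind_pos hl] at hc; linarith
    rw [av_add, av_add, av_add, av_mul_left, av_mul_left, av_mul_left, s1] at this
    change _ ≤ 16 * T + 16 * T + _ + _ at this
    linarith
  have s4 : ∀ a b, ind (¬ (E a b ↔ Lab f g a b)) ≤ ind (E a b ∧ ¬ Good b) + ind (E b a ∧ ¬ Good a)
      + ind (E a b ∧ ¬ K b a) + ind (E a b ∧ ¬ K a b) + ind (Miss E a b) := by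
    intro a b
    refine le_trans (ind_mono ?_) ((ind_or_le _ _).trans (add_le_add ((ind_or_le _ _).trans
      (add_le_add ((ind_or_le _ _).trans (add_le_add (ind_or_le _ _) le_rfl)) le_rfl)) le_rfl))
    intro h
    by_cases hab : E a b
    · by_contra hc
      simp only [not_or, not_and, not_not] at hc
      obtain ⟨⟨⟨⟨c1, c2⟩, c3⟩, c4⟩, -⟩ := hc
      exact h ⟨fun _ => cA a b hab (c2 (hs _ _ hab)) (c1 hab) (c3 hab) (c4 hab), fun _ => hab⟩
    · refine Or.inr (cB a b ?_ hab)
      by_contra hc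
      exact h ⟨fun h => absurd h hab, fun h => absurd h hc⟩
  refine (av_le_av fun a => av_le_av fun b => s4 a b).trans ?_
  simp only [av_add]
  rw [av_comm (fun a b => ind (E b a ∧ ¬ Good a)), sw (fun b => ¬ Good b)]
  change _ + _ + av bad + T + _ ≤ _
  linarith

omit [Nonempty V] in
lemma av_ind_eq' (u : V) : av (fun a : V => ind (a = u)) = 1 / Fintype.card V := by
  rw [av_ind_eq_ncard]
  have : {j : V | j = u} = {u} := by ext; simp
  rw [this]; simp

lemma clean (hs : ∀ a b, E a b → E b a) (γ : ℝ) (hγ : 0 < γ) :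
    ∃ U : Set V, (∀ a, a ∈ U → γ ≤ deg (fun a b => E a b ∧ a ∈ U ∧ b ∈ U) a) ∧
      av (fun a => av (fun b => ind (E a b ∧ ¬ (a ∈ U ∧ b ∈ U)))) ≤ 2 * γ := by
  let e : Set V → ℝ := fun U => av (fun a => av (fun b => ind (E a b ∧ a ∈ U ∧ b ∈ U)))
  let m : Set V → ℝ := fun U => av (fun a => ind (a ∈ U))
  obtain ⟨U, hU⟩ := Finite.exists_max (fun U => e U - 2 * γ * m U)
  have hN : (0 : ℝ) < 1 / Fintype.card V := by
    have : (0 : ℝ) < Fintype.card V := by exact_mod_cast Fintype.card_pos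
    positivity
  refine ⟨U, fun u hu => ?_, ?_⟩
  · have h1 := hU (U \ {u})
    have h2 : m (U \ {u}) + 1 / Fintype.card V ≤ m U := by
      rw [← av_ind_eq' u]
      simp only [m]
      rw [← av_add]
      refine av_le_av fun a => ?_
      by_cases h : a = u
      · subst h
        rw [ind_neg (by simp), ind_pos rfl, ind_pos hu, zero_add]
      · rw [ind_neg h, add_zero]; exact ind_mono fun h => h.1
    have h3 : e U ≤ e (U \ {u}) + 2 * (1 / Fintype.card V
        * deg (fun a b => E a b ∧ a ∈ U ∧ b ∈ U) u) := by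
      have : e U ≤ av (fun a => av (fun b => ind (E a b ∧ a ∈ U \ {u} ∧ b ∈ U \ {u})
          + ind (a = u) * ind (E u b ∧ u ∈ U ∧ b ∈ U)
          + ind (E u a ∧ u ∈ U ∧ a ∈ U) * ind (b = u))) := by
        refine av_le_av fun a => av_le_av fun b => ?_
        rw [← ind_and, ← ind_and]
        refine le_trans (ind_mono ?_) ((ind_or_le _ _).trans (add_le_add (ind_or_le _ _) le_rfl))
        rintro ⟨k1, k2, k3⟩
        by_cases ha : a = u
        · subst ha; exact Or.inl (Or.inr ⟨rfl, k1, k2, k3⟩)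
        by_cases hb : b = u
        · subst hb; exact Or.inr ⟨⟨hs _ _ k1, k3, k2⟩, rfl⟩
        exact Or.inl (Or.inl ⟨k1, ⟨k2, ha⟩, k3, hb⟩)
      simp only [av_add, av_mul_left, av_mul_right, av_ind_eq'] at this
      change _ ≤ e (U \ {u}) + _ * deg (fun a b => E a b ∧ a ∈ U ∧ b ∈ U) u
        + deg (fun a b => E a b ∧ a ∈ U ∧ b ∈ U) u * _ at this
      linarith
    have h4 : 1 / (Fintype.card V : ℝ) * γ
        ≤ 1 / Fintype.card V * deg (fun a b => E a b ∧ a ∈ U ∧ b ∈ U) u := by nlinarith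
    exact le_of_mul_le_mul_left h4 hN
  · have h1 := hU Set.univ
    have h2 : m Set.univ ≤ 1 := av_ind_le_one _
    have h3 : 0 ≤ m U := av_ind_nonneg _
    have h4 : av (fun a => av (fun b => ind (E a b ∧ ¬ (a ∈ U ∧ b ∈ U)))) = e Set.univ - e U := by
      simp only [e]
      rw [← av_sub]
      refine av_congr fun a => ?_
      rw [← av_sub]
      refine av_congr fun b => ?_
      by_cases k1 : E a b <;> by_cases k2 : a ∈ U ∧ b ∈ U <;> simp [k1, k2, ind_pos, ind_neg]
    rw [h4]
    nlinarith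

theorem main_rel {k : ℕ} (hs : ∀ a b, E a b → E b a) (hirr : ∀ a, ¬ E a a) (γ g : ℝ) (L : ℕ)
    (hγ : 0 < γ) (hg : 0 < g) (hγ1 : γ ≤ 1) (hL : 4 ≤ γ ^ 2 * 2 ^ L)
    (hgγ : 160 * ((L : ℝ) + 1) ^ 2 * g ^ 2 ≤ γ)
    (hk : 64 * (30 * (160 * ((L : ℝ) + 1)) / g) ^ 3 ≤ k)
    (hfar : ∀ f g : V → Set V,
      583 * γ ≤ av (fun a => av (fun b => ind (¬ (E a b ↔ Lab f g a b))))) :
    2 / 3 ≤ av (fun ω : Fin k → V => ind (Rej E ω)) := by
  obtain ⟨U, hU1, hU2⟩ := clean hs γ hγ
  let E1 : V → V → Prop := fun a b => E a b ∧ a ∈ U ∧ b ∈ U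
  have hs1 : ∀ a b, E1 a b → E1 b a := fun a b h => ⟨hs _ _ h.1, h.2.2, h.2.1⟩
  have hirr1 : ∀ a, ¬ E1 a a := fun a h => hirr a h.1
  have hmin : ∀ a b, E1 a b → γ ≤ deg E1 a := fun a b h => hU1 a h.2.1
  suffices h : 2 / 3 ≤ av (fun ω : Fin k → V => ind (Rej E1 ω)) by
    refine h.trans (av_le_av fun ω => ind_mono ?_)
    rintro ⟨a, b, c, d, q1, q2, q3, q4, e1, e2, e3, e4⟩
    exact ⟨a, b, c, d, q1, q2, q3, q4, e1.1, e2.1, e3.1, fun h => e4 ⟨h, e1.2.1, e3.2.2⟩⟩
  choose p hp using fun b => Finite.exists_min (fun x => dis E1 b x)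
  obtain ⟨f, f', hc⟩ := close hs1 p
  have h1 := hfar f f'
  have h2 : av (fun a => av (fun b => ind (¬ (E a b ↔ Lab f f' a b))))
      ≤ av (fun a => av (fun b => ind (E a b ∧ ¬ (a ∈ U ∧ b ∈ U))))
        + av (fun a => av (fun b => ind (¬ (E1 a b ↔ Lab f f' a b)))) := by
    rw [← av_add]
    refine av_le_av fun a => ?_
    rw [← av_add]
    refine av_le_av fun b => le_trans (ind_mono ?_) (ind_or_le _ _)
    simp only [E1]
    tauto
  have hΛ : (1 : ℝ) ≤ L + 1 := by have : (0 : ℝ) ≤ L := Nat.cast_nonneg _; linarith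
  by_cases c1 : γ ≤ av (fun b => dis E1 b (p b))
  · exact case1 hs1 γ g L hγ hg hγ1 hL hgγ hk hmin _ (fun b => av_ind_nonneg _)
      (fun b => av_le_av fun y => ind_mono And.left) (fun b x _ => hp b x) c1
  by_cases c2 : γ ≤ av (fun a => av (fun d => ind (Miss E1 a d)))
  · exact case2 hs1 γ g L hγ hg hγ1 hL hgγ hk hmin c2
  refine case3 hs1 hirr1 γ g (160 * (L + 1)) hγ hg hγ1 (by linarith) ?_ hk hmin (by linarith)
  have : (1 : ℝ) ≤ (L + 1) ^ 2 := by nlinarith
  nlinarith [sq_nonneg g]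

end Pool.Agent.Lib.MP_8d7d3d_lc
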