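import Pool.Agent.Lib.MP_8d7d3d_lc.Moment

/-! Detection of a spread family of quadruples by an iid sample. -/

namespace Pool.Agent.Lib.MP_8d7d3d_lc

variable {V : Type} [Fintype V] [Nonempty V]

omit [Nonempty V] in
lemma av_sum_arrow {α β : Type} [Fintype α] [Fintype β] [DecidableEq α] [DecidableEq β]
    (F : (α → V) → (β → V) → ℝ) :
    av (fun η : α ⊕ β → V => F (fun a => η (Sum.inl a)) (fun b => η (Sum.inr b)))
      = av (fun x => av (fun y => F x y)) := by
  rw [← av_prod (fun p : (α → V) × (β → V) => F p.1 p.2)]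
  exact av_equiv (Equiv.sumArrowEquivProdArrow α β V) (fun p => F p.1 p.2)

/-- index `4 i + r` -/
def ix {s k : ℕ} (h : 4 * s ≤ k) (r : Fin 4) (i : Fin s) : Fin k :=
  ⟨4 * i.val + r.val, by have := i.isLt; have := r.isLt; omega⟩

lemma transfer {s t k : ℕ} (hs : 4 * s ≤ k) (ht : 4 * t ≤ k)
    (F : (Fin s → V) → (Fin t → V) → (Fin s → V) → (Fin t → V) → ℝ) :
    av (fun ω : Fin k → V => F (fun i => ω (ix hs 0 i)) (fun j => ω (ix ht 1 j))
      (fun i => ω (ix hs 2 i)) (fun j => ω (ix ht 3 j)))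
      = av (fun u => av (fun z => av (fun y => av (fun x => F x y z u)))) := by
  let e : Fin t ⊕ (Fin s ⊕ (Fin t ⊕ Fin s)) → Fin k :=
    Sum.elim (ix ht 3) (Sum.elim (ix hs 2) (Sum.elim (ix ht 1) (ix hs 0)))
  have he : Function.Injective e := by
    rintro (a | a | a | a) (b | b | b | b) hab <;>
      simp only [e, Sum.elim_inl, Sum.elim_inr, ix, Fin.mk.injEq] at hab <;>
      first
      | (exfalso; simp at hab; omega)
      | (have : a = b := Fin.ext (by simp at hab; omega)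
         rw [this])
  have h := av_comp_inj (V := V) e he (fun η => F
    (fun i => η (Sum.inr (Sum.inr (Sum.inr i)))) (fun j => η (Sum.inr (Sum.inr (Sum.inl j))))
    (fun i => η (Sum.inr (Sum.inl i))) (fun j => η (Sum.inl j)))
  refine Eq.trans h ?_
  rw [av_sum_arrow (fun (u : Fin t → V) (η : Fin s ⊕ (Fin t ⊕ Fin s) → V) => F
    (fun i => η (Sum.inr (Sum.inr i))) (fun j => η (Sum.inr (Sum.inl j)))
    (fun i => η (Sum.inl i)) u)]
  refine av_congr fun u => ?_
  rw [av_sum_arrow (fun (z : Fin s → V) (η : Fin t ⊕ Fin s → V) => F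
    (fun i => η (Sum.inr i)) (fun j => η (Sum.inl j)) z u)]
  refine av_congr fun z => ?_
  exact av_sum_arrow (fun (y : Fin t → V) (x : Fin s → V) => F x y z u)

omit [Nonempty V] in
lemma paley {Ω : Type} [Fintype Ω] (X : Ω → ℝ) (p : Ω → Prop) (W : ℝ) (hW : 0 < W)
    (hp : ∀ ω, X ω ≠ 0 → p ω) (h1 : av X = W) (h2 : av (fun ω => X ω ^ 2) ≤ 3 / 2 * W * W) :
    2 / 3 ≤ av (fun ω => ind (p ω)) := by
  have h := av_cs X (fun ω => ind (p ω))
  have e : av (fun ω => X ω * ind (p ω)) = W := by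
    rw [← h1]
    refine av_congr fun ω => ?_
    by_cases hx : X ω = 0
    · simp [hx]
    · rw [ind_pos (hp ω hx), mul_one]
  simp only [ind_sq] at h
  rw [e] at h
  have h3 := av_ind_nonneg p
  have h4 : W ^ 2 ≤ 3 / 2 * W * W * av (fun ω => ind (p ω)) :=
    h.trans (mul_le_mul_of_nonneg_right h2 h3)
  have h5 : 0 < W ^ 2 := by positivity
  nlinarith

lemma detect_nat {s t k : ℕ} (hs0 : 0 < s) (ht0 : 0 < t) (hs : 4 * s ≤ k) (ht : 4 * t ≤ k)
    (w : V → V → V → V → ℝ) (W : ℝ) (hW : 0 < W)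
    (h : av (fun a => av (fun b => av (fun c => av (fun d => w a b c d)))) = W)
    (h0 : ∀ a b c d, 0 ≤ w a b c d)
    (habcd : ∀ a b c d, w a b c d ≤ s * t * s * t * W / 30)
    (habc : ∀ a b c, av (fun d => w a b c d) ≤ s * t * s * W / 30)
    (habd : ∀ a b d, av (fun c => w a b c d) ≤ s * t * t * W / 30)
    (hacd : ∀ a c d, av (fun b => w a b c d) ≤ s * s * t * W / 30)
    (hbcd : ∀ b c d, av (fun a => w a b c d) ≤ t * s * t * W / 30)
    (hab : ∀ a b, av (fun c => av (fun d => w a b c d)) ≤ s * t * W / 30)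
    (hac : ∀ a c, av (fun b => av (fun d => w a b c d)) ≤ s * s * W / 30)
    (had : ∀ a d, av (fun b => av (fun c => w a b c d)) ≤ s * t * W / 30)
    (hbc : ∀ b c, av (fun a => av (fun d => w a b c d)) ≤ t * s * W / 30)
    (hbd : ∀ b d, av (fun a => av (fun c => w a b c d)) ≤ t * t * W / 30)
    (hcd : ∀ c d, av (fun a => av (fun b => w a b c d)) ≤ s * t * W / 30)
    (ha : ∀ a, av (fun b => av (fun c => av (fun d => w a b c d))) ≤ s * W / 30)
    (hb : ∀ b, av (fun a => av (fun c => av (fun d => w a b c d))) ≤ t * W / 30)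
    (hc : ∀ c, av (fun a => av (fun b => av (fun d => w a b c d))) ≤ s * W / 30)
    (hd : ∀ d, av (fun a => av (fun b => av (fun c => w a b c d))) ≤ t * W / 30) :
    2 / 3 ≤ av (fun ω : Fin k → V => ind (∃ a b c d : Fin k, a.val < 4 * s ∧ b.val < 4 * t ∧
      c.val < 4 * s ∧ d.val < 4 * t ∧ 0 < w (ω a) (ω b) (ω c) (ω d))) := by
  refine paley (fun ω : Fin k → V => av (fun i => av (fun j => av (fun l => av (fun m =>
    w (ω (ix hs 0 i)) (ω (ix ht 1 j)) (ω (ix hs 2 l)) (ω (ix ht 3 m))))))) _ W hW ?_ ?_ ?_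
  · intro ω hω
    have hpos : 0 < av (fun i => av (fun j => av (fun l => av (fun m =>
        w (ω (ix hs 0 i)) (ω (ix ht 1 j)) (ω (ix hs 2 l)) (ω (ix ht 3 m)))))) :=
      lt_of_le_of_ne (av_nonneg fun _ => av_nonneg fun _ => av_nonneg fun _ =>
        av_nonneg fun _ => h0 _ _ _ _) (Ne.symm hω)
    obtain ⟨i, hi⟩ := exists_pos_of_av_pos hpos
    obtain ⟨j, hj⟩ := exists_pos_of_av_pos hi
    obtain ⟨l, hl⟩ := exists_pos_of_av_pos hj
    obtain ⟨m, hm⟩ := exists_pos_of_av_pos hl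
    refine ⟨_, _, _, _, ?_, ?_, ?_, ?_, hm⟩
    · have := i.isLt; simp [ix]
    · have := j.isLt; simp [ix]; omega
    · have := l.isLt; simp [ix]; omega
    · have := m.isLt; simp [ix]; omega
  · rw [transfer hs ht (fun x y z u => av (fun i => av (fun j => av (fun l => av (fun m =>
      w (x i) (y j) (z l) (u m))))))]
    have e1 : ∀ (u : Fin t → V) (z : Fin s → V) (y : Fin t → V),
        av (fun x : Fin s → V => av (fun i => av (fun j => av (fun l => av (fun m =>
          w (x i) (y j) (z l) (u m))))))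
        = av (fun j => av (fun l => av (fun m => av (fun a => w a (y j) (z l) (u m))))) := by
      intro u z y
      rw [first_moment hs0 (fun a => av (fun j => av (fun l => av (fun m =>
        w a (y j) (z l) (u m)))))]
      exact av_rot4 _
    have e2 : ∀ (u : Fin t → V) (z : Fin s → V),
        av (fun y : Fin t → V => av (fun j => av (fun l => av (fun m => av (fun a =>
          w a (y j) (z l) (u m))))))
        = av (fun l => av (fun m => av (fun a => av (fun b => w a b (z l) (u m))))) := by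
      intro u z
      rw [first_moment ht0 (fun b => av (fun l => av (fun m => av (fun a =>
        w a b (z l) (u m)))))]
      exact av_rot4 _
    have e3 : ∀ (u : Fin t → V),
        av (fun z : Fin s → V => av (fun l => av (fun m => av (fun a => av (fun b =>
          w a b (z l) (u m))))))
        = av (fun m => av (fun a => av (fun b => av (fun c => w a b c (u m))))) := by
      intro u
      rw [first_moment hs0 (fun c => av (fun m => av (fun a => av (fun b =>
        w a b c (u m)))))]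
      exact av_rot4 _
    simp only [e1, e2, e3]
    rw [first_moment ht0 (fun d => av (fun a => av (fun b => av (fun c => w a b c d)))), ← h]
    exact av_rot4 (fun d a b c => w a b c d)
  · rw [transfer hs ht (fun x y z u => (av (fun i => av (fun j => av (fun l => av (fun m =>
      w (x i) (y j) (z l) (u m)))))) ^ 2)]
    refine (sm4 hs0 ht0 hs0 ht0 w _ _ _ _ _ _ _ _ _ _ _ _ _ _ _ W h0 habcd habc habd hacd hbcd
      hab hac had hbc hbd hcd ha hb hc hd h.le).trans ?_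
    rw [h]
    have hs' : (s : ℝ) ≠ 0 := by positivity
    have ht' : (t : ℝ) ≠ 0 := by positivity
    apply le_of_eq
    congr 1
    field_simp
    ring

/-- the pairs of sample positions that are queried -/
def Qd {k : ℕ} (a b : Fin k) : Prop := (a.val + 1) * (b.val + 1) ≤ k

lemma Qd_of {k s t : ℕ} (hk : 16 * (s * t) ≤ k) {a b : Fin k} (ha : a.val < 4 * s)
    (hb : b.val < 4 * t) : Qd a b := by
  unfold Qd
  have h1 : a.val + 1 ≤ 4 * s := ha
  have h2 : b.val + 1 ≤ 4 * t := hb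
  calc _ ≤ 4 * s * (4 * t) := Nat.mul_le_mul h1 h2
    _ = 16 * (s * t) := by ring
    _ ≤ k := hk

/-- real valued sizes -/
lemma detect_real {k : ℕ} (S T : ℝ) (hS : 1 ≤ S) (hT : 1 ≤ T) (hk : 64 * (S * T) ≤ k)
    (w : V → V → V → V → ℝ) (W : ℝ) (hW : 0 < W)
    (h : av (fun a => av (fun b => av (fun c => av (fun d => w a b c d)))) = W)
    (h0 : ∀ a b c d, 0 ≤ w a b c d)
    (habcd : ∀ a b c d, w a b c d ≤ S * T * S * T * W / 30)
    (habc : ∀ a b c, av (fun d => w a b c d) ≤ S * T * S * W / 30)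
    (habd : ∀ a b d, av (fun c => w a b c d) ≤ S * T * T * W / 30)
    (hacd : ∀ a c d, av (fun b => w a b c d) ≤ S * S * T * W / 30)
    (hbcd : ∀ b c d, av (fun a => w a b c d) ≤ T * S * T * W / 30)
    (hab : ∀ a b, av (fun c => av (fun d => w a b c d)) ≤ S * T * W / 30)
    (hac : ∀ a c, av (fun b => av (fun d => w a b c d)) ≤ S * S * W / 30)
    (had : ∀ a d, av (fun b => av (fun c => w a b c d)) ≤ S * T * W / 30)
    (hbc : ∀ b c, av (fun a => av (fun d => w a b c d)) ≤ T * S * W / 30)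
    (hbd : ∀ b d, av (fun a => av (fun c => w a b c d)) ≤ T * T * W / 30)
    (hcd : ∀ c d, av (fun a => av (fun b => w a b c d)) ≤ S * T * W / 30)
    (ha : ∀ a, av (fun b => av (fun c => av (fun d => w a b c d))) ≤ S * W / 30)
    (hb : ∀ b, av (fun a => av (fun c => av (fun d => w a b c d))) ≤ T * W / 30)
    (hc : ∀ c, av (fun a => av (fun b => av (fun d => w a b c d))) ≤ S * W / 30)
    (hd : ∀ d, av (fun a => av (fun b => av (fun c => w a b c d))) ≤ T * W / 30) :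
    ∃ s t : ℕ, 16 * (s * t) ≤ k ∧ (S = T → s = t) ∧
    2 / 3 ≤ av (fun ω : Fin k → V => ind (∃ a b c d : Fin k, a.val < 4 * s ∧ b.val < 4 * t ∧
      c.val < 4 * s ∧ d.val < 4 * t ∧ 0 < w (ω a) (ω b) (ω c) (ω d))) := by
  have h1 : S ≤ (⌈S⌉₊ : ℝ) := Nat.le_ceil S
  have h2 : T ≤ (⌈T⌉₊ : ℝ) := Nat.le_ceil T
  have h3 : (⌈S⌉₊ : ℝ) ≤ 2 * S := by have := Nat.ceil_lt_add_one (by linarith : 0 ≤ S); linarith
  have h4 : (⌈T⌉₊ : ℝ) ≤ 2 * T := by have := Nat.ceil_lt_add_one (by linarith : 0 ≤ T); linarith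
  have hs0 : 0 < ⌈S⌉₊ := Nat.ceil_pos.mpr (by linarith)
  have ht0 : 0 < ⌈T⌉₊ := Nat.ceil_pos.mpr (by linarith)
  have hk' : 16 * (⌈S⌉₊ * ⌈T⌉₊) ≤ k := by
    have : (16 : ℝ) * (⌈S⌉₊ * ⌈T⌉₊) ≤ k := by
      have : (⌈S⌉₊ : ℝ) * ⌈T⌉₊ ≤ 2 * S * (2 * T) := by gcongr
      linarith
    exact_mod_cast this
  have hS0 : 0 ≤ S := by linarith
  have hT0 : 0 ≤ T := by linarith
  refine ⟨⌈S⌉₊, ⌈T⌉₊, hk', fun hST => by rw [hST], detect_nat hs0 ht0 (by nlinarith)
    (by nlinarith) w W hW h h0 ?_ ?_ ?_ ?_ ?_ ?_ ?_ ?_ ?_ ?_ ?_ ?_ ?_ ?_ ?_⟩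
  · exact fun a b c d => (habcd a b c d).trans (by gcongr)
  · exact fun a b c => (habc a b c).trans (by gcongr)
  · exact fun a b c => (habd a b c).trans (by gcongr)
  · exact fun a b c => (hacd a b c).trans (by gcongr)
  · exact fun a b c => (hbcd a b c).trans (by gcongr)
  · exact fun a b => (hab a b).trans (by gcongr)
  · exact fun a b => (hac a b).trans (by gcongr)
  · exact fun a b => (had a b).trans (by gcongr)
  · exact fun a b => (hbc a b).trans (by gcongr)
  · exact fun a b => (hbd a b).trans (by gcongr)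
  · exact fun a b => (hcd a b).trans (by gcongr)
  · exact fun a => (ha a).trans (by gcongr)
  · exact fun a => (hb a).trans (by gcongr)
  · exact fun a => (hc a).trans (by gcongr)
  · exact fun a => (hd a).trans (by gcongr)

/-- the rejection event of the tester -/
def Rej {V : Type} {k : ℕ} (E : V → V → Prop) (x : Fin k → V) : Prop :=
  ∃ a b c d : Fin k, Qd a b ∧ Qd c b ∧ Qd c d ∧ Qd a d ∧
    E (x a) (x b) ∧ E (x c) (x b) ∧ E (x c) (x d) ∧ ¬ E (x a) (x d)

/-- choice of the scale -/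
lemma detect_scale {k : ℕ} (E : V → V → Prop) (g κ S0 T0 : ℝ) (hg : 0 < g) (hg1 : g ≤ 1)
    (hκ : 1 ≤ κ) (hk : 64 * (30 * κ / g) ^ 3 ≤ k)
    (hS0 : 0 ≤ S0) (hT0 : 0 ≤ T0) (hS1 : S0 ≤ κ / g ^ 2) (hT1 : T0 ≤ κ / g ^ 2)
    (hST : S0 * T0 ≤ κ ^ 3 / g ^ 3)
    (w : V → V → V → V → ℝ) (W : ℝ) (hW : g ^ 2 ≤ W)
    (h : av (fun a => av (fun b => av (fun c => av (fun d => w a b c d)))) = W)
    (h0 : ∀ a b c d, 0 ≤ w a b c d)
    (hw : ∀ a b c d, 0 < w a b c d → E a b ∧ E c b ∧ E c d ∧ ¬ E a d)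
    (habcd : ∀ a b c d, w a b c d ≤ κ / g ^ 4)
    (habc : ∀ a b c, av (fun d => w a b c d) ≤ κ / g ^ 2)
    (habd : ∀ a b d, av (fun c => w a b c d) ≤ κ / g ^ 2)
    (hacd : ∀ a c d, av (fun b => w a b c d) ≤ κ / g ^ 2)
    (hbcd : ∀ b c d, av (fun a => w a b c d) ≤ κ / g ^ 2)
    (hab : ∀ a b, av (fun c => av (fun d => w a b c d)) ≤ κ)
    (hac : ∀ a c, av (fun b => av (fun d => w a b c d)) ≤ S0 * S0 * W)
    (had : ∀ a d, av (fun b => av (fun c => w a b c d)) ≤ κ)
    (hbc : ∀ b c, av (fun a => av (fun d => w a b c d)) ≤ κ)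
    (hbd : ∀ b d, av (fun a => av (fun c => w a b c d)) ≤ T0 * T0 * W)
    (hcd : ∀ c d, av (fun a => av (fun b => w a b c d)) ≤ κ)
    (ha : ∀ a, av (fun b => av (fun c => av (fun d => w a b c d))) ≤ S0 * W)
    (hb : ∀ b, av (fun a => av (fun c => av (fun d => w a b c d))) ≤ T0 * W)
    (hc : ∀ c, av (fun a => av (fun b => av (fun d => w a b c d))) ≤ S0 * W)
    (hd : ∀ d, av (fun a => av (fun b => av (fun c => w a b c d))) ≤ T0 * W) :
    2 / 3 ≤ av (fun ω : Fin k → V => ind (Rej E ω)) := by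
  set r : ℝ := 30 * κ / g with hr
  have hrg : r * g = 30 * κ := by rw [hr]; field_simp
  have hr1 : 30 ≤ r := by rw [hr, le_div_iff₀ hg]; nlinarith
  have hr0 : 0 < r := by linarith
  have hW0 : 0 < W := lt_of_lt_of_le (by positivity) hW
  have hκ0 : 0 < κ := by linarith
  have hr2 : 30 * (κ / g ^ 2) ≤ r ^ 2 := by
    rw [hr, div_pow, ← mul_div_assoc]
    gcongr
    nlinarith
  have hr3 : 900 * (κ ^ 3 / g ^ 3) ≤ r ^ 3 := by
    rw [hr, div_pow, ← mul_div_assoc]
    gcongr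
    have : 0 < κ ^ 3 := by positivity
    nlinarith
  obtain ⟨S, T, hSr, hTr, hS2, hT2, hprod⟩ : ∃ S T : ℝ, r ≤ S ∧ r ≤ T ∧ 30 * S0 ≤ S ∧
      30 * T0 ≤ T ∧ S * T = r ^ 3 := by
    rcases le_total (30 * S0) r with h1 | h1
    · exact ⟨r, r ^ 2, le_rfl, by nlinarith, h1, by linarith, by ring⟩
    · have hS : 0 < 30 * S0 := by linarith
      refine ⟨30 * S0, r ^ 3 / (30 * S0), h1, ?_, le_rfl, ?_, mul_div_cancel₀ _ hS.ne'⟩
      · rw [le_div_iff₀ hS]; nlinarith
      · rw [le_div_iff₀ hS]; nlinarith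
  have hS0' : 0 < S := by linarith
  have hT0' : 0 < T := by linarith
  have p2 : κ ≤ S * T * W / 30 := by
    rw [hprod]
    have h1 : r ^ 3 * g ^ 2 ≤ r ^ 3 * W := by gcongr
    have h2 : r ^ 3 * g ^ 2 = r * (30 * κ) ^ 2 := by rw [← hrg]; ring
    have h3 : 30 * κ ≤ r * (30 * κ) ^ 2 := by nlinarith
    linarith
  have p3 : κ / g ^ 2 ≤ r * (S * T) * W / 30 := by
    rw [hprod]
    have h1 : r * r ^ 3 * g ^ 2 ≤ r * r ^ 3 * W := by gcongr
    have h2 : r * r ^ 3 * g ^ 2 = r ^ 2 * (30 * κ) ^ 2 := by rw [← hrg]; ring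
    have h3 : r ^ 2 ≤ r ^ 2 * (30 * κ) ^ 2 := by
      have : 1 ≤ (30 * κ) ^ 2 := by nlinarith
      nlinarith [sq_nonneg r]
    linarith
  have p4 : κ / g ^ 4 ≤ (S * T) * (S * T) * W / 30 := by
    rw [hprod]
    have h1 : r ^ 3 * r ^ 3 * g ^ 2 ≤ r ^ 3 * r ^ 3 * W := by gcongr
    have h2 : r ^ 3 * r ^ 3 * g ^ 2 * g ^ 4 = (30 * κ) ^ 6 := by rw [← hrg]; ring
    have h3 : 30 * κ ≤ (30 * κ) ^ 6 := le_self_pow₀ (by linarith) (by norm_num)
    have h4 : 30 * (κ / g ^ 4) ≤ r ^ 3 * r ^ 3 * g ^ 2 := by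
      rw [← mul_div_assoc, div_le_iff₀ (by positivity)]; linarith
    linarith
  have q3S : κ / g ^ 2 ≤ S * (S * T) * W / 30 := p3.trans (by gcongr)
  have q3T : κ / g ^ 2 ≤ T * (S * T) * W / 30 := p3.trans (by gcongr)
  have qS : S0 * W ≤ S * W / 30 := by nlinarith
  have qT : T0 * W ≤ T * W / 30 := by nlinarith
  have qSS : S0 * S0 * W ≤ S * S * W / 30 := by
    have : 30 * S0 * (30 * S0) ≤ S * S := by gcongr
    have h2 : 0 ≤ S0 * S0 := by positivity
    nlinarith
  have qTT : T0 * T0 * W ≤ T * T * W / 30 := by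
    have : 30 * T0 * (30 * T0) ≤ T * T := by gcongr
    have h2 : 0 ≤ T0 * T0 := by positivity
    nlinarith
  obtain ⟨s, t, hst, -, hmain⟩ := detect_real (k := k) S T (by linarith) (by linarith)
    (by rw [hprod]; exact hk) w W hW0 h h0
    (fun a b c d => (habcd a b c d).trans (p4.trans (le_of_eq (by ring))))
    (fun a b c => (habc a b c).trans (q3S.trans (le_of_eq (by ring))))
    (fun a b c => (habd a b c).trans (q3T.trans (le_of_eq (by ring))))
    (fun a b c => (hacd a b c).trans (q3S.trans (le_of_eq (by ring))))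
    (fun a b c => (hbcd a b c).trans (q3T.trans (le_of_eq (by ring))))
    (fun a b => (hab a b).trans p2) (fun a b => (hac a b).trans qSS)
    (fun a b => (had a b).trans p2)
    (fun a b => (hbc a b).trans (p2.trans (le_of_eq (by ring))))
    (fun a b => (hbd a b).trans qTT) (fun a b => (hcd a b).trans p2)
    (fun a => (ha a).trans qS) (fun a => (hb a).trans qT) (fun a => (hc a).trans qS)
    (fun a => (hd a).trans qT)
  refine hmain.trans (av_le_av fun ω => ind_mono ?_)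
  rintro ⟨a, b, c, d, h1, h2, h3, h4, h5⟩
  exact ⟨a, b, c, d, Qd_of hst h1 h2, Qd_of hst h3 h2, Qd_of hst h3 h4, Qd_of hst h1 h4,
    hw _ _ _ _ h5⟩

/-- triangles -/
lemma detect_tri {k : ℕ} (E : V → V → Prop) (hirr : ∀ a, ¬ E a a) (g κ : ℝ) (hg : 0 < g)
    (hg1 : g ≤ 1) (hκ : 1 ≤ κ) (hk : 64 * (30 * κ / g) ^ 3 ≤ k)
    (w : V → V → V → ℝ) (W : ℝ) (hW : g ^ 2 ≤ W)
    (h : av (fun a => av (fun b => av (fun c => w a b c))) = W)
    (h0 : ∀ a b c, 0 ≤ w a b c)
    (hw : ∀ a b c, 0 < w a b c → E a b ∧ E c b ∧ E c a)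
    (habc : ∀ a b c, w a b c ≤ κ / g ^ 2)
    (hab : ∀ a b, av (fun c => w a b c) ≤ κ)
    (hac : ∀ a c, av (fun b => w a b c) ≤ κ)
    (hbc : ∀ b c, av (fun a => w a b c) ≤ κ)
    (ha : ∀ a, av (fun b => av (fun c => w a b c)) ≤ κ / g * W)
    (hb : ∀ b, av (fun a => av (fun c => w a b c)) ≤ κ / g * W)
    (hc : ∀ c, av (fun a => av (fun b => w a b c)) ≤ κ / g * W) :
    2 / 3 ≤ av (fun ω : Fin k → V => ind (Rej E ω)) := by
  set r : ℝ := 30 * κ / g with hr
  have hrg : r * g = 30 * κ := by rw [hr]; field_simp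
  have hr1 : 30 ≤ r := by rw [hr, le_div_iff₀ hg]; nlinarith
  have hr0 : 0 < r := by linarith
  have hW0 : 0 < W := lt_of_lt_of_le (by positivity) hW
  have hκ0 : 0 < κ := by linarith
  obtain ⟨S, hSr, hprod⟩ : ∃ S : ℝ, r ≤ S ∧ S * S = r ^ 3 := by
    refine ⟨Real.sqrt (r ^ 3), Real.le_sqrt_of_sq_le (by nlinarith),
      Real.mul_self_sqrt (by positivity)⟩
  have hS0 : 0 < S := by linarith
  have hS1 : 1 ≤ S := by linarith
  have hr2 : 30 * (κ / g ^ 2) ≤ r ^ 2 := by
    rw [hr, div_pow, ← mul_div_assoc]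
    gcongr
    nlinarith
  have p1 : κ / g * W ≤ S * W / 30 := by
    have : 30 * (κ / g) = r := by rw [hr]; ring
    nlinarith
  have p2 : κ ≤ S * S * W / 30 := by
    rw [hprod]
    have h1 : r ^ 3 * g ^ 2 ≤ r ^ 3 * W := by gcongr
    have h2 : r ^ 3 * g ^ 2 = r * (30 * κ) ^ 2 := by rw [← hrg]; ring
    have h3 : 30 * κ ≤ r * (30 * κ) ^ 2 := by nlinarith
    linarith
  have p3 : κ / g ^ 2 ≤ S * S * S * W / 30 := by
    rw [hprod]
    have h0 : r ^ 3 * r * W ≤ r ^ 3 * S * W := by gcongr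
    have h1 : r ^ 3 * r * g ^ 2 ≤ r ^ 3 * r * W := by gcongr
    have h2 : r ^ 3 * r * g ^ 2 = r ^ 2 * (30 * κ) ^ 2 := by rw [← hrg]; ring
    have h3 : r ^ 2 ≤ r ^ 2 * (30 * κ) ^ 2 := by
      have : 1 ≤ (30 * κ) ^ 2 := by nlinarith
      nlinarith [sq_nonneg r]
    linarith
  have up : ∀ x : ℝ, 0 ≤ x → x * W / 30 ≤ x * S * W / 30 := by
    intro x hx
    have : x * W * 1 ≤ x * W * S := by gcongr
    linarith
  have p1' := p1.trans (up S hS0.le)
  have p2' := p2.trans (up (S * S) (by positivity))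
  have p3' := p3.trans (up (S * S * S) (by positivity))
  obtain ⟨s, t, hst, hs, hmain⟩ := detect_real (k := k) S S hS1 hS1
    (by rw [hprod]; exact hk) (fun a b c _ => w a b c) W hW0 (by simpa only [av_const] using h)
    (fun a b c _ => h0 a b c)
    (fun a b c _ => (habc a b c).trans p3')
    (fun a b c => by simpa only [av_const] using (habc a b c).trans p3)
    (fun a b _ => (hab a b).trans p2')
    (fun a c _ => (hac a c).trans p2')
    (fun b c _ => (hbc b c).trans p2')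
    (fun a b => by simpa only [av_const] using (hab a b).trans p2)
    (fun a c => by simpa only [av_const] using (hac a c).trans p2)
    (fun a _ => (ha a).trans p1')
    (fun b c => by simpa only [av_const] using (hbc b c).trans p2)
    (fun b _ => (hb b).trans p1') (fun c _ => (hc c).trans p1')
    (fun a => by simpa only [av_const] using (ha a).trans p1)
    (fun a => by simpa only [av_const] using (hb a).trans p1)
    (fun a => by simpa only [av_const] using (hc a).trans p1)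
    (fun _ => by rw [h]; nlinarith)
  obtain rfl := hs rfl
  refine hmain.trans (av_le_av fun ω => ind_mono ?_)
  rintro ⟨a, b, c, d, h1, h2, h3, -, h5⟩
  obtain ⟨e1, e2, e3⟩ := hw _ _ _ h5
  exact ⟨a, b, c, a, Qd_of hst h1 h2, Qd_of hst h3 h2, Qd_of hst h3 h1, Qd_of hst h1 h1,
    e1, e2, e3, hirr _⟩

end Pool.Agent.Lib.MP_8d7d3d_lc
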