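import Pool.Agent.Lib.MP_8d7d3d_lc.Main
import Pool.Agent.Lib.Complexity.Rec

/-! An explicit sample size, and the decision rule as a polynomial time function of the answers. -/

namespace Pool.Agent.Lib.MP_8d7d3d_lc

open Pool.Agent.Lib.Complexity

/-- the list of queried pairs of positions -/
def qs (k : ℕ) : List (Fin k × Fin k) :=
  (List.finRange k ×ˢ List.finRange k).filter fun p => (p.1.val + 1) * (p.2.val + 1) ≤ k

lemma mem_qs {k : ℕ} {p : Fin k × Fin k} : p ∈ qs k ↔ (p.1.val + 1) * (p.2.val + 1) ≤ k := by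
  obtain ⟨a, b⟩ := p
  simp [qs]

lemma qs_length (k : ℕ) : ((qs k).length : ℝ) =
    Set.ncard {p : Fin k × Fin k | (p.1.val + 1) * (p.2.val + 1) ≤ k} := by
  have h : (qs k).Nodup := ((List.nodup_finRange k).product (List.nodup_finRange k)).filter _
  rw [← List.toFinset_card_of_nodup h, ← Set.ncard_coe_finset]
  congr 2
  ext p
  simp [mem_qs]

/-- the position of the first `false` -/
def kk (s : List Bool) : ℕ := (((s.zipIdx 0).find? fun p => !p.1).map fun p => p.2).getD 0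

/-- the table of answers -/
def tb (s : List Bool) : List ((ℕ × ℕ) × Bool) :=
  (((List.range (kk s)).flatMap fun i => (List.range (kk s)).map fun j => (i, j)).filter
    fun p => decide ((p.1 + 1) * (p.2 + 1) ≤ kk s)).zip (s.drop (kk s + 1))

/-- membership in the table -/
def lk (T : List ((ℕ × ℕ) × Bool)) (a b : ℕ) (t : Bool) : Bool := decide (((a, b), t) ∈ T)

@[fun_prop] lemma pt_lk {α : Type} [Enc α] {T : α → List ((ℕ × ℕ) × Bool)} {a b : α → ℕ} (t : Bool)
    (hT : PT T) (ha : PT a) (hb : PT b) : PT fun x => lk (T x) (a x) (b x) t :=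
  PT.dec_mem (f := fun x => ((a x, b x), t)) (by fun_prop) hT

/-- the search for a witness -/
def wit (p : List ℕ × List ((ℕ × ℕ) × Bool)) : Bool :=
  p.1.any fun a => p.1.any fun b => p.1.any fun c => p.1.any fun d =>
    lk p.2 a b true && lk p.2 c b true && lk p.2 c d true && lk p.2 a d false

/-- the decision -/
def acc (s : List Bool) : Bool := !wit (List.range (kk s), tb s)

lemma pt_acc : PT acc := by
  have h1 : PT kk := by unfold kk; fun_prop
  have h2 : PT tb := by unfold tb; fun_prop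
  have h3 : PT wit := by unfold wit; fun_prop
  unfold acc
  fun_prop

lemma tm_acc : Nonempty (Turing.TM2ComputableInPolyTime (fun s : List Bool => s)
    (fun b : Bool => [b]) acc) :=
  tm2_of_str (F := fun s => [acc s]) (by have := pt_acc; fun_prop) fun _ => rfl

lemma kk_eq (k : ℕ) (l : List Bool) : kk (List.replicate k true ++ false :: l) = k := by
  have : ∀ n, ((List.replicate k true ++ false :: l).zipIdx n).find? (fun p => !p.1) =
      some (false, n + k) := by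
    induction k with
    | zero => simp
    | succ k ih =>
      intro n
      rw [List.replicate_succ, List.cons_append, List.zipIdx_cons, List.find?_cons_of_neg (by simp),
        ih, Nat.add_right_comm, Nat.add_assoc]
  simp [kk, this]

lemma tb_eq (k : ℕ) (A : Fin k × Fin k → Bool) :
    tb (List.replicate k true ++ false :: (qs k).map A) =
      (qs k).map fun p => ((p.1.val, p.2.val), A p) := by
  have h : ((List.range k).flatMap fun i => (List.range k).map fun j => (i, j)).filter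
      (fun p => decide ((p.1 + 1) * (p.2 + 1) ≤ k)) = (qs k).map fun p => (p.1.val, p.2.val) := by
    rw [← List.map_coe_finRange_eq_range, qs]
    simp only [List.flatMap_map, List.map_map, SProd.sprod, List.product, List.filter_flatMap,
      List.map_flatMap, List.filter_map]
    rfl
  rw [tb, kk_eq, h, List.drop_append, List.drop_eq_nil_of_le (by simp)]
  simp [List.zip_map']

lemma acc_false {k : ℕ} (A : Fin k × Fin k → Bool) :
    acc (List.replicate k true ++ false :: (qs k).map A) = false ↔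
      ∃ a b c d : Fin k, Qd a b ∧ Qd c b ∧ Qd c d ∧ Qd a d ∧
        A (a, b) = true ∧ A (c, b) = true ∧ A (c, d) = true ∧ A (a, d) = false := by
  have h : ∀ (a b : Fin k) (t : Bool), ((a.val, b.val), t) ∈ ((qs k).map fun p =>
      ((p.1.val, p.2.val), A p)) ↔ Qd a b ∧ A (a, b) = t := fun a b t => by
    simp only [List.mem_map, Prod.mk.injEq, Fin.val_inj, mem_qs]
    exact ⟨fun ⟨p, h1, ⟨h2, h3⟩, h4⟩ => h2 ▸ h3 ▸ ⟨h1, h4⟩, fun h => ⟨(a, b), h.1, ⟨rfl, rfl⟩, h.2⟩⟩
  rw [acc, tb_eq, kk_eq, ← List.map_coe_finRange_eq_range]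
  simp only [wit, lk, Bool.not_eq_eq_eq_not, Bool.not_false, List.any_map, List.any_eq_true,
    List.mem_finRange, true_and, Function.comp, Bool.and_eq_true, decide_eq_true_eq, h]
  refine exists₄_congr fun a b c d => ?_
  tauto

lemma params' : ∃ B C : ℝ, ∀ ε : ℝ, 0 < ε → ε ≤ 1 → ∀ k : ℕ,
    k = ⌈B * ε ^ (-(3 / 2 : ℝ)) * Real.log (2 / ε) ^ 6⌉₊ → ∃ (L : ℕ) (g : ℝ), 0 < g ∧
    4 ≤ (ε / 600) ^ 2 * 2 ^ L ∧ 160 * ((L : ℝ) + 1) ^ 2 * g ^ 2 ≤ ε / 600 ∧
    64 * (30 * (160 * ((L : ℝ) + 1)) / g) ^ 3 ≤ k ∧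
    (k : ℝ) * (1 + Real.log k) ≤ C * ε ^ (-(3 / 2 : ℝ)) * Real.log (2 / ε) ^ 7 := by
  obtain ⟨C0, hC0, hC1⟩ : ∃ C0 : ℝ, C0 = 64 * 1488000 ^ 3 * 34 ^ 6 + 64 ∧ 1 ≤ C0 :=
    ⟨_, rfl, by norm_num⟩
  refine ⟨64 * 1488000 ^ 3 * 34 ^ 6, C0 * (10 + 2 * Real.log C0), fun ε hε hε1 k hk => ?_⟩
  set y : ℝ := 2 / ε with hy
  have hy2 : 2 ≤ y := by rw [hy, le_div_iff₀ hε]; linarith
  set l := Real.log y with hl
  have hl2 : Real.log 2 ≤ l := Real.log_le_log (by norm_num) hy2
  have hlog := Real.log_two_gt_d9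
  have hl0 : 1 / 2 ≤ l := by linarith
  have hx : (1 : ℝ) ≤ 360000 * y ^ 2 := by nlinarith
  obtain ⟨n, hn1, hn2⟩ := exists_nat_pow_near hx (by norm_num : (1 : ℝ) < 2)
  have hn3 : (n : ℝ) * Real.log 2 ≤ 21 * l := by
    have h1 : (360000 : ℝ) ≤ y ^ 19 := le_trans (by norm_num) (pow_le_pow_left₀ (by norm_num) hy2 19)
    have h2 : (2 : ℝ) ^ n ≤ y ^ 21 := by
      calc _ ≤ 360000 * y ^ 2 := hn1
        _ ≤ y ^ 19 * y ^ 2 := by gcongr
        _ = _ := by ring
    have h3 := Real.log_le_log (by positivity) h2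
    rw [Real.log_pow, Real.log_pow] at h3
    exact_mod_cast h3
  set Λ : ℝ := ((n + 1 : ℕ) : ℝ) + 1 with hΛ
  have hΛ1 : 1 ≤ Λ := by have : (0 : ℝ) ≤ ((n + 1 : ℕ) : ℝ) := Nat.cast_nonneg _; linarith
  have hΛ2 : Λ ≤ 34 * l := by
    have h0 : (0 : ℝ) ≤ n := Nat.cast_nonneg _
    rw [hΛ]; push_cast
    nlinarith
  set s := Real.sqrt ε with hs
  have hs0 : 0 < s := Real.sqrt_pos.mpr hε
  have hss : s ^ 2 = ε := Real.sq_sqrt hε.le
  have hs1 : s ≤ 1 := by nlinarith
  have hpow : ε ^ (-(3 / 2 : ℝ)) = 1 / s ^ 3 := by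
    rw [Real.rpow_neg hε.le, one_div, hs, Real.sqrt_eq_rpow, ← Real.rpow_natCast,
      ← Real.rpow_mul hε.le]
    norm_num
  rw [hpow] at hk
  refine ⟨n + 1, s / (310 * Λ), by positivity, ?_, ?_, ?_, ?_⟩
  · have : (ε / 600) ^ 2 * (360000 * y ^ 2) = 4 := by rw [hy]; field_simp; ring
    rw [← this]
    gcongr
  · change 160 * Λ ^ 2 * _ ≤ _
    have : 160 * Λ ^ 2 * (s / (310 * Λ)) ^ 2 = 160 / 96100 * s ^ 2 := by field_simp; ring
    rw [this, hss]; linarith
  · refine le_trans ?_ (hk ▸ Nat.le_ceil _)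
    change 64 * (30 * (160 * Λ) / (s / (310 * Λ))) ^ 3 ≤ _
    calc _ = 64 * 1488000 ^ 3 * Λ ^ 6 * (1 / s ^ 3) := by field_simp; ring
      _ ≤ 64 * 1488000 ^ 3 * (34 * l) ^ 6 * (1 / s ^ 3) := by gcongr
      _ = _ := by ring
  · have h1 : (k : ℝ) ≤ 64 * 1488000 ^ 3 * 34 ^ 6 * (1 / s ^ 3) * l ^ 6 + 1 :=
      hk ▸ (Nat.ceil_lt_add_one (by positivity)).le
    have h3 : 1 ≤ 1 / s ^ 3 := by
      rw [le_div_iff₀ (by positivity), one_mul]; exact pow_le_one₀ hs0.le hs1
    have h5 : 1 ≤ 64 * l ^ 6 := by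
      have : (1 / 2 : ℝ) ^ 6 ≤ l ^ 6 := by gcongr
      linarith
    have h6 : (k : ℝ) ≤ C0 * l ^ 6 * (1 / s ^ 3) := by
      have e2 : 1 * 1 ≤ 64 * l ^ 6 * (1 / s ^ 3) := by gcongr
      rw [hC0]
      calc _ ≤ 64 * 1488000 ^ 3 * 34 ^ 6 * (1 / s ^ 3) * l ^ 6 + 64 * l ^ 6 * (1 / s ^ 3) := by
            linarith
        _ = _ := by ring
    have hk0 : (0 : ℝ) < k := by
      have : 0 < k := hk ▸ Nat.ceil_pos.mpr (by positivity)
      exact_mod_cast this
    have h7 : l ≤ y := by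
      have := Real.log_le_sub_one_of_pos (by linarith : 0 < y)
      linarith
    have h8 : 1 / s ^ 3 ≤ y ^ 2 := by
      rw [hy, ← hss, div_pow, div_le_div_iff₀ (by positivity) (by positivity)]
      have : (s ^ 2) ^ 2 = s ^ 3 * s := by ring
      rw [this]
      nlinarith [pow_pos hs0 3]
    have h9 : (k : ℝ) ≤ C0 * y ^ 8 := by
      calc _ ≤ C0 * l ^ 6 * (1 / s ^ 3) := h6
        _ ≤ C0 * y ^ 6 * y ^ 2 := by gcongr
        _ = _ := by ring
    have h10 := Real.log_le_log hk0 h9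
    rw [Real.log_mul (by linarith) (by positivity), Real.log_pow] at h10
    have h11 : 0 ≤ Real.log C0 := Real.log_nonneg hC1
    have h12 : 1 + Real.log k ≤ (10 + 2 * Real.log C0) * l := by
      push_cast at h10
      nlinarith
    have h13 : 0 ≤ 1 + Real.log k := by
      have := Real.log_natCast_nonneg k
      linarith
    rw [hpow]
    calc _ ≤ C0 * l ^ 6 * (1 / s ^ 3) * ((10 + 2 * Real.log C0) * l) := by gcongr
      _ = _ := by ring

theorem main' : ∃ B C : ℝ, ∀ ε : ℝ, 0 < ε → ε ≤ 1 → ∀ k : ℕ,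
    k = ⌈B * ε ^ (-(3 / 2 : ℝ)) * Real.log (2 / ε) ^ 6⌉₊ → ((qs k).length : ℝ)
      ≤ C * ε ^ (-(3 / 2 : ℝ)) * Real.log (2 / ε) ^ 7 ∧
    ∀ (N : ℕ) (G : SimpleGraph (Fin N)),
      (∀ H : SimpleGraph (Fin N), (∃ (part : Fin N → ℕ) (side : Fin N → Bool), ∀ a b,
          H.Adj a b ↔ part a = part b ∧ side a ≠ side b) →
        ε * (N : ℝ) ^ 2 < Set.ncard (symmDiff G.edgeSet H.edgeSet)) →
      2 * N ^ k ≤ 3 * Set.ncard {x : Fin k → Fin N | Rej G.Adj x} := by
  obtain ⟨B, C, hC⟩ := params'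
  refine ⟨B, C, fun ε hε hε1 k hk => ?_⟩
  obtain ⟨L, g, hg, h1, h2, h3, h4⟩ := hC ε hε hε1 k hk
  refine ⟨(qs_length k).trans_le ((pattern_card k).trans h4), fun N G hfar => ?_⟩
  rcases Nat.eq_zero_or_pos N with rfl | hN
  · have := hfar G ⟨fun _ => 0, fun _ => true, fun a => a.elim0⟩
    simp at this
  have : Nonempty (Fin N) := ⟨⟨0, hN⟩⟩
  have hN' : (0 : ℝ) < N := by exact_mod_cast hN
  have h5 := main_rel (k := k) (E := G.Adj) (fun _ _ h => h.symm) (fun a => G.irrefl) (ε / 600) g L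
    (by linarith) hg (by linarith) h1 h2 h3 (by
      intro f f'
      have e1 := hfar (labGraph f f') (lab_parts f f')
      have e2 := dist_le G (labGraph f f')
      have e3 : ε ≤ (Set.ncard (symmDiff G.edgeSet (labGraph f f').edgeSet) : ℝ) / (N : ℝ) ^ 2 := by
        rw [le_div_iff₀ (by positivity)]; exact e1.le
      change _ ≤ av (fun a => av (fun b => ind (¬ (G.Adj a b ↔ Lab f f' a b)))) at e2
      linarith)
  rw [av_ind_eq_ncard, Fintype.card_fun, Fintype.card_fin, Fintype.card_fin,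
    div_le_div_iff₀ (by norm_num) (by positivity)] at h5
  have h6 : (2 : ℝ) * N ^ k ≤ 3 * Set.ncard {x : Fin k → Fin N | Rej G.Adj x} := by
    push_cast at h5; linarith
  exact_mod_cast h6

end Pool.Agent.Lib.MP_8d7d3d_lc
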