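import Pool.Agent.Lib.MP_8d7d3d_lc.Detect

/-! Normalised degrees, codegrees and similarity. -/

namespace Pool.Agent.Lib.MP_8d7d3d_lc

variable {V : Type} [Fintype V]

/-- normalised degree -/
noncomputable def deg (E : V → V → Prop) (a : V) : ℝ := av (fun b => ind (E a b))

/-- normalised codegree -/
noncomputable def cod (E : V → V → Prop) (a c : V) : ℝ := av (fun b => ind (E a b ∧ E c b))

/-- similarity of neighbourhoods -/
def Sim (E : V → V → Prop) (η : ℝ) (a c : V) : Prop :=
  (1 - η) * deg E a ≤ cod E a c ∧ (1 - η) * deg E c ≤ cod E a c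

variable {E : V → V → Prop}

lemma deg_nonneg (a : V) : 0 ≤ deg E a := av_ind_nonneg _
lemma deg_le_one [Nonempty V] (a : V) : deg E a ≤ 1 := av_ind_le_one _
lemma cod_nonneg (a c : V) : 0 ≤ cod E a c := av_ind_nonneg _
lemma cod_comm (a c : V) : cod E a c = cod E c a := av_congr fun _ => ind_congr and_comm
lemma cod_le_left (a c : V) : cod E a c ≤ deg E a := av_le_av fun _ => ind_mono And.left
lemma cod_le_right (a c : V) : cod E a c ≤ deg E c := av_le_av fun _ => ind_mono And.right
lemma cod_self (a : V) : cod E a a = deg E a := av_congr fun _ => ind_congr and_self_iff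

lemma Sim.symm {η : ℝ} {a c : V} (h : Sim E η a c) : Sim E η c a := by
  unfold Sim at *
  rw [cod_comm c a]; exact ⟨h.2, h.1⟩

lemma Sim.refl {η : ℝ} (hη : 0 ≤ η) (a : V) : Sim E η a a := by
  unfold Sim
  rw [cod_self]
  have := deg_nonneg (E := E) a
  constructor <;> nlinarith

/-- two subsets of a common set overlap -/
lemma av_inter {ι : Type} [Fintype ι] (p q r : ι → Prop) (hp : ∀ i, p i → r i)
    (hq : ∀ i, q i → r i) :
    av (fun i => ind (p i)) + av (fun i => ind (q i))
      ≤ av (fun i => ind (r i)) + av (fun i => ind (p i ∧ q i)) := by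
  rw [← av_add, ← av_add]
  refine av_le_av fun i => ?_
  by_cases h1 : p i
  · by_cases h2 : q i
    · rw [ind_pos h1, ind_pos h2, ind_pos (hp i h1), ind_pos ⟨h1, h2⟩]
    · rw [ind_pos h1, ind_neg h2, ind_pos (hp i h1)]; linarith [ind_nonneg (p i ∧ q i)]
  · rw [ind_neg h1]
    have := ind_mono (hq i)
    linarith [ind_nonneg (p i ∧ q i)]

lemma cod_tri (a x c : V) : cod E a x + cod E x c ≤ deg E x + cod E a c :=
  (av_inter (fun b => E a b ∧ E x b) (fun b => E x b ∧ E c b) (fun b => E x b)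
    (fun _ h => h.2) (fun _ h => h.1)).trans
    (add_le_add le_rfl (av_le_av fun _ => ind_mono fun h => ⟨h.1.1, h.2.2⟩))

lemma deg_pos_of_adj {a b : V} (h : E a b) : 0 < deg E a := by
  have hN : (0 : ℝ) < Fintype.card V := by
    have : Nonempty V := ⟨a⟩
    exact_mod_cast Fintype.card_pos
  unfold deg
  rw [av_ind_eq_ncard]
  apply div_pos _ hN
  have : 0 < Set.ncard {i | E a i} := (Set.ncard_pos (Set.toFinite _)).mpr ⟨b, h⟩
  exact_mod_cast this

lemma exists_of_av_ind_pos {ι : Type} [Fintype ι] {p : ι → Prop}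
    (h : 0 < av (fun i => ind (p i))) : ∃ i, p i := by
  obtain ⟨i, hi⟩ := exists_pos_of_av_pos h
  exact ⟨i, of_ind_ne hi.ne'⟩

lemma Sim.deg_le {a c : V} (h : Sim E (1 / 16) a c) : 15 * deg E a ≤ 16 * deg E c := by
  have h1 := h.1
  have h2 := cod_le_right (E := E) a c
  linarith

lemma sim_trans1 {a x c : V} (h1 : Sim E (1 / 40) x a) (h2 : Sim E (1 / 40) x c) :
    Sim E (1 / 16) a c := by
  have e1 := cod_tri (E := E) a x c
  have e2 := cod_comm (E := E) a x
  have e3 := cod_le_right (E := E) x a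
  have e4 := cod_le_right (E := E) x c
  have e5 := deg_nonneg (E := E) x
  obtain ⟨h11, h12⟩ := h1
  obtain ⟨h21, h22⟩ := h2
  constructor <;> linarith

/-- the part of the neighbourhood of `c` outside the neighbourhood of `a` -/
lemma av_diff (a c : V) : av (fun d => ind (E c d ∧ ¬ E a d)) = deg E c - cod E a c := by
  unfold deg cod
  rw [← av_sub]
  refine av_congr fun d => ?_
  by_cases h1 : E c d <;> by_cases h2 : E a d <;> simp [h1, h2, ind_pos, ind_neg]

lemma diff_of_not_sim {a c : V} (h : ¬ Sim E (1 / 40) a c) (hd : deg E a ≤ deg E c) :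
    deg E c / 40 ≤ av (fun d => ind (E c d ∧ ¬ E a d)) := by
  rw [av_diff]
  by_contra hc
  push Not at hc
  exact h ⟨by linarith, by linarith⟩

/-- a bound that holds on a predicate, and vanishing off it -/
lemma le_mul_ind {x c : ℝ} {p : Prop} (h1 : x ≤ c) (h2 : ¬ p → x ≤ 0) : x ≤ c * ind p := by
  by_cases hp : p
  · rw [ind_pos hp]; linarith
  · rw [ind_neg hp]; linarith [h2 hp]

lemma av_le_zero {ι : Type} [Fintype ι] {f : ι → ℝ} (h : ∀ i, f i = 0) : av f ≤ 0 := by
  rw [av_congr h, av_zero]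

end Pool.Agent.Lib.MP_8d7d3d_lc
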