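import Pool.Agent.Lib.MP_8d7d3d_lc.Close

/-! Parameters, the number of queries, and the translation to simple graphs. -/

namespace Pool.Agent.Lib.MP_8d7d3d_lc

lemma pattern_card (k : ℕ) :
    (Set.ncard {p : Fin k × Fin k | (p.1.val + 1) * (p.2.val + 1) ≤ k} : ℝ)
      ≤ k * (1 + Real.log k) := by
  classical
  have h1 : {p : Fin k × Fin k | (p.1.val + 1) * (p.2.val + 1) ≤ k}
      = ((Finset.univ.filter fun p : Fin k × Fin k => (p.1.val + 1) * (p.2.val + 1) ≤ k :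
          Finset _) : Set _) := by ext; simp
  rw [h1, Set.ncard_coe_finset, Finset.card_filter, Fintype.sum_prod_type]
  have h2 : ∀ i : Fin k, ((∑ j : Fin k, if (i.val + 1) * (j.val + 1) ≤ k then 1 else 0 : ℕ) : ℝ)
      ≤ k * ((i.val + 1 : ℕ) : ℝ)⁻¹ := by
    intro i
    rw [← Finset.card_filter]
    have h3 : (Finset.univ.filter fun j : Fin k => (i.val + 1) * (j.val + 1) ≤ k).card
        ≤ (Finset.range (k / (i.val + 1))).card := by
      refine Finset.card_le_card_of_injOn (fun j => j.val) ?_ fun a _ b _ h => Fin.ext h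
      intro j hj
      simp only [Finset.coe_filter, Finset.mem_univ, true_and, Set.mem_ofPred_eq] at hj
      simp only [Finset.coe_range, Set.mem_Iio]
      have : j.val + 1 ≤ k / (i.val + 1) :=
        (Nat.le_div_iff_mul_le (Nat.succ_pos _)).mpr (by rw [mul_comm]; exact hj)
      omega
    rw [Finset.card_range] at h3
    calc _ ≤ ((k / (i.val + 1) : ℕ) : ℝ) := by exact_mod_cast h3
      _ ≤ (k : ℝ) / ((i.val + 1 : ℕ) : ℝ) := Nat.cast_div_le
      _ = _ := div_eq_mul_inv _ _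
  rw [Nat.cast_sum]
  refine (Finset.sum_le_sum fun i _ => h2 i).trans ?_
  rw [← Finset.mul_sum]
  gcongr
  refine le_trans (le_of_eq ?_) (harmonic_le_one_add_log k)
  rw [Fin.sum_univ_eq_sum_range (fun i => (((i + 1 : ℕ) : ℝ))⁻¹) k]
  simp [harmonic]

lemma params : ∃ C : ℝ, ∀ ε : ℝ, 0 < ε → ε ≤ 1 → ∃ (k L : ℕ) (g : ℝ), 0 < g ∧
    4 ≤ (ε / 600) ^ 2 * 2 ^ L ∧ 160 * ((L : ℝ) + 1) ^ 2 * g ^ 2 ≤ ε / 600 ∧
    64 * (30 * (160 * ((L : ℝ) + 1)) / g) ^ 3 ≤ k ∧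
    (k : ℝ) * (1 + Real.log k) ≤ C * ε ^ (-(3 / 2 : ℝ)) * Real.log (2 / ε) ^ 7 := by
  obtain ⟨C0, hC0, hC1⟩ : ∃ C0 : ℝ, C0 = 64 * 1488000 ^ 3 * 34 ^ 6 + 64 ∧ 1 ≤ C0 :=
    ⟨_, rfl, by norm_num⟩
  refine ⟨C0 * (10 + 2 * Real.log C0), fun ε hε hε1 => ?_⟩
  set y : ℝ := 2 / ε with hy
  have hy2 : 2 ≤ y := by rw [hy, le_div_iff₀ hε]; linarith
  set l := Real.log y with hl
  have hl2 : Real.log 2 ≤ l := Real.log_le_log (by norm_num) hy2
  have hlog := Real.log_two_gt_d9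
  have hl0 : 1 / 2 ≤ l := by linarith
  have hx : (1 : ℝ) ≤ 360000 * y ^ 2 := by nlinarith
  obtain ⟨n, hn1, hn2⟩ := exists_nat_pow_near hx (by norm_num : (1 : ℝ) < 2)
  have hn3 : (n : ℝ) * Real.log 2 ≤ 21 * l := by
    have h1 : (360000 : ℝ) ≤ y ^ 19 := le_trans (by norm_num) (pow_le_pow_left₀ (by norm_num) hy2 19)
    have h2 : (2 : ℝ) ^ n ≤ y ^ 21 := by
      calc _ ≤ 360000 * y ^ 2 := hn1
        _ ≤ y ^ 19 * y ^ 2 := by gcongr
        _ = _ := by ring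
    have h3 := Real.log_le_log (by positivity) h2
    rw [Real.log_pow, Real.log_pow] at h3
    exact_mod_cast h3
  set Λ : ℝ := ((n + 1 : ℕ) : ℝ) + 1 with hΛ
  have hΛ1 : 1 ≤ Λ := by have : (0 : ℝ) ≤ ((n + 1 : ℕ) : ℝ) := Nat.cast_nonneg _; linarith
  have hΛ2 : Λ ≤ 34 * l := by
    have h0 : (0 : ℝ) ≤ n := Nat.cast_nonneg _
    rw [hΛ]; push_cast
    nlinarith
  set s := Real.sqrt ε with hs
  have hs0 : 0 < s := Real.sqrt_pos.mpr hε
  have hss : s ^ 2 = ε := Real.sq_sqrt hε.le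
  have hs1 : s ≤ 1 := by nlinarith
  have hpow : ε ^ (-(3 / 2 : ℝ)) = 1 / s ^ 3 := by
    rw [Real.rpow_neg hε.le, one_div, hs, Real.sqrt_eq_rpow, ← Real.rpow_natCast,
      ← Real.rpow_mul hε.le]
    norm_num
  refine ⟨⌈64 * (30 * (160 * Λ) / (s / (310 * Λ))) ^ 3⌉₊, n + 1, s / (310 * Λ), by positivity,
    ?_, ?_, Nat.le_ceil _, ?_⟩
  · have : (ε / 600) ^ 2 * (360000 * y ^ 2) = 4 := by rw [hy]; field_simp; ring
    rw [← this]
    gcongr
  · change 160 * Λ ^ 2 * _ ≤ _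
    have : 160 * Λ ^ 2 * (s / (310 * Λ)) ^ 2 = 160 / 96100 * s ^ 2 := by field_simp; ring
    rw [this, hss]; linarith
  · set k := ⌈64 * (30 * (160 * Λ) / (s / (310 * Λ))) ^ 3⌉₊ with hk
    have h1 : (k : ℝ) ≤ 64 * (30 * (160 * Λ) / (s / (310 * Λ))) ^ 3 + 1 :=
      (Nat.ceil_lt_add_one (by positivity)).le
    have h2 : 64 * (30 * (160 * Λ) / (s / (310 * Λ))) ^ 3
        = 64 * 1488000 ^ 3 * Λ ^ 6 * (1 / s ^ 3) := by field_simp; ring
    have h3 : 1 ≤ 1 / s ^ 3 := by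
      rw [le_div_iff₀ (by positivity), one_mul]; exact pow_le_one₀ hs0.le hs1
    have h4 : Λ ^ 6 ≤ (34 * l) ^ 6 := by gcongr
    have h5 : 1 ≤ 64 * l ^ 6 := by
      have : (1 / 2 : ℝ) ^ 6 ≤ l ^ 6 := by gcongr
      linarith
    have h6 : (k : ℝ) ≤ C0 * l ^ 6 * (1 / s ^ 3) := by
      rw [h2] at h1
      have e1 : 64 * 1488000 ^ 3 * Λ ^ 6 * (1 / s ^ 3)
          ≤ 64 * 1488000 ^ 3 * (34 * l) ^ 6 * (1 / s ^ 3) := by gcongr
      have e2 : 1 * 1 ≤ 64 * l ^ 6 * (1 / s ^ 3) := by gcongr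
      rw [hC0]
      calc _ ≤ 64 * 1488000 ^ 3 * (34 * l) ^ 6 * (1 / s ^ 3) + 64 * l ^ 6 * (1 / s ^ 3) := by
            linarith
        _ = _ := by ring
    have hk0 : (0 : ℝ) < k := by
      have : 0 < k := Nat.ceil_pos.mpr (by positivity)
      exact_mod_cast this
    have h7 : l ≤ y := by
      have := Real.log_le_sub_one_of_pos (by linarith : 0 < y)
      linarith
    have h8 : 1 / s ^ 3 ≤ y ^ 2 := by
      rw [hy, ← hss, div_pow, div_le_div_iff₀ (by positivity) (by positivity)]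
      have : (s ^ 2) ^ 2 = s ^ 3 * s := by ring
      rw [this]
      nlinarith [pow_pos hs0 3]
    have h9 : (k : ℝ) ≤ C0 * y ^ 8 := by
      calc _ ≤ C0 * l ^ 6 * (1 / s ^ 3) := h6
        _ ≤ C0 * y ^ 6 * y ^ 2 := by gcongr
        _ = _ := by ring
    have h10 := Real.log_le_log hk0 h9
    rw [Real.log_mul (by linarith) (by positivity), Real.log_pow] at h10
    have h11 : 0 ≤ Real.log C0 := Real.log_nonneg hC1
    have h12 : 1 + Real.log k ≤ (10 + 2 * Real.log C0) * l := by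
      push_cast at h10
      nlinarith
    have h13 : 0 ≤ 1 + Real.log k := by
      have := Real.log_natCast_nonneg k
      linarith
    rw [hpow]
    calc _ ≤ C0 * l ^ 6 * (1 / s ^ 3) * ((10 + 2 * Real.log C0) * l) := by gcongr
      _ = _ := by ring

lemma lab_parts {V : Type} [Finite V] (f g : V → Set V) :
    ∃ (part : V → ℕ) (side : V → Bool), ∀ a b,
      Lab f g a b ↔ part a = part b ∧ side a ≠ side b := by
  obtain ⟨e, he⟩ := exists_injective_nat (Set V)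
  refine ⟨fun a => Nat.pair (min (e (f a)) (e (g a))) (max (e (f a)) (e (g a))),
    fun a => decide (e (f a) < e (g a)), fun a b => ?_⟩
  unfold Lab
  rw [← he.eq_iff, ← he.eq_iff (a := g a), ← he.ne_iff, Nat.pair_eq_pair]
  simp only [ne_eq, decide_eq_decide]
  omega

/-- the simple graph given by two labellings -/
def labGraph {V α : Type} (f g : V → α) : SimpleGraph V where
  Adj := Lab f g
  symm := ⟨fun _ _ h => ⟨h.2.1.symm, h.1.symm, fun h' => h.2.2 (h.1.trans (h'.symm.trans h.2.1.symm))⟩⟩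
  loopless := ⟨fun _ h => h.2.2 h.1⟩

lemma dist_le {N : ℕ} (G H : SimpleGraph (Fin N)) :
    (Set.ncard (symmDiff G.edgeSet H.edgeSet) : ℝ) / (N : ℝ) ^ 2
      ≤ av (fun a => av (fun b => ind (¬ (G.Adj a b ↔ H.Adj a b)))) := by
  rw [← av_prod (fun p : Fin N × Fin N => ind (¬ (G.Adj p.1 p.2 ↔ H.Adj p.1 p.2))),
    av_ind_eq_ncard, Fintype.card_prod, Fintype.card_fin, sq]
  push_cast
  gcongr
  refine le_trans (Set.ncard_le_ncard ?_ (Set.toFinite _))
    (Set.ncard_image_le (f := fun p : Fin N × Fin N => s(p.1, p.2)) (Set.toFinite _))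
  intro e he
  induction e using Sym2.ind with
  | _ a b =>
    refine ⟨(a, b), ?_, rfl⟩
    simp only [Set.mem_symmDiff, SimpleGraph.mem_edgeSet] at he
    simp only [Set.mem_ofPred_eq]
    tauto

theorem main : ∃ C : ℝ, ∀ ε : ℝ, 0 < ε → ε ≤ 1 → ∃ k : ℕ,
    (Set.ncard {p : Fin k × Fin k | (p.1.val + 1) * (p.2.val + 1) ≤ k} : ℝ)
      ≤ C * ε ^ (-(3 / 2 : ℝ)) * Real.log (2 / ε) ^ 7 ∧
    ∀ (N : ℕ) (G : SimpleGraph (Fin N)),
      (∀ H : SimpleGraph (Fin N), (∃ (part : Fin N → ℕ) (side : Fin N → Bool), ∀ a b,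
          H.Adj a b ↔ part a = part b ∧ side a ≠ side b) →
        ε * (N : ℝ) ^ 2 < Set.ncard (symmDiff G.edgeSet H.edgeSet)) →
      2 * N ^ k ≤ 3 * Set.ncard {x : Fin k → Fin N | Rej G.Adj x} := by
  obtain ⟨C, hC⟩ := params
  refine ⟨C, fun ε hε hε1 => ?_⟩
  obtain ⟨k, L, g, hg, h1, h2, h3, h4⟩ := hC ε hε hε1
  refine ⟨k, (pattern_card k).trans h4, fun N G hfar => ?_⟩
  rcases Nat.eq_zero_or_pos N with rfl | hN
  · have := hfar G ⟨fun _ => 0, fun _ => true, fun a => a.elim0⟩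
    simp at this
  have : Nonempty (Fin N) := ⟨⟨0, hN⟩⟩
  have hN' : (0 : ℝ) < N := by exact_mod_cast hN
  have h5 := main_rel (k := k) (E := G.Adj) (fun _ _ h => h.symm) (fun a => G.irrefl) (ε / 600) g L
    (by linarith) hg (by linarith) h1 h2 h3 (by
      intro f f'
      have e1 := hfar (labGraph f f') (lab_parts f f')
      have e2 := dist_le G (labGraph f f')
      have e3 : ε ≤ (Set.ncard (symmDiff G.edgeSet (labGraph f f').edgeSet) : ℝ) / (N : ℝ) ^ 2 := by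
        rw [le_div_iff₀ (by positivity)]; exact e1.le
      change _ ≤ av (fun a => av (fun b => ind (¬ (G.Adj a b ↔ Lab f f' a b)))) at e2
      linarith)
  rw [av_ind_eq_ncard, Fintype.card_fun, Fintype.card_fin, Fintype.card_fin,
    div_le_div_iff₀ (by norm_num) (by positivity)] at h5
  have h6 : (2 : ℝ) * N ^ k ≤ 3 * Set.ncard {x : Fin k → Fin N | Rej G.Adj x} := by
    push_cast at h5; linarith
  exact_mod_cast h6

end Pool.Agent.Lib.MP_8d7d3d_lc
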