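import Pool.Agent.Lib.MP_8d7d3d_lc.Av

/-! Second moment bounds for product samples. -/

namespace Pool.Agent.Lib.MP_8d7d3d_lc

variable {V : Type} [Fintype V] [Nonempty V]

lemma av_eval {n : ℕ} (i : Fin n) (F : V → ℝ) : av (fun x : Fin n → V => F (x i)) = av F := by
  have h := av_comp_inj (ι := Fin n) (κ := Unit) (V := V) (fun _ => i)
    (fun _ _ _ => Subsingleton.elim _ _) (fun y => F (y ()))
  rw [h]
  exact av_equiv (Equiv.funUnique Unit V) F

lemma av_eval2 {n : ℕ} (i j : Fin n) (hij : i ≠ j) (F : V → ℝ) :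
    av (fun x : Fin n → V => F (x i) * F (x j)) = av F * av F := by
  have hinj : Function.Injective (fun b : Bool => if b then j else i) := by
    intro a b hab
    cases a <;> cases b <;> simp_all [eq_comm]
  have h := av_comp_inj (ι := Fin n) (κ := Bool) (V := V) _ hinj
    (fun y => F (y false) * F (y true))
  simp only [Bool.false_eq_true, if_false, if_true] at h
  rw [h, av_mul_av, ← av_prod (fun p : V × V => F p.1 * F p.2)]
  exact av_equiv (Equiv.boolArrowEquivProd V) (fun p : V × V => F p.1 * F p.2)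

lemma first_moment {n : ℕ} (hn : 0 < n) (F : V → ℝ) :
    av (fun x : Fin n → V => av (fun i => F (x i))) = av F := by
  have : Nonempty (Fin n) := ⟨⟨0, hn⟩⟩
  rw [av_comm]
  simp only [av_eval, av_const]

lemma av_ind_eq {n : ℕ} (i : Fin n) : av (fun j : Fin n => ind (i = j)) = 1 / n := by
  rw [av_ind_eq_ncard]
  have : {j : Fin n | i = j} = {i} := by ext; simp [eq_comm]
  rw [this]; simp

lemma one_role {n : ℕ} (hn : 0 < n) (F : V → ℝ) :
    av (fun x : Fin n → V => (av (fun i => F (x i))) ^ 2)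
      ≤ 1 / n * av (fun v => F v ^ 2) + (av F) ^ 2 := by
  have : Nonempty (Fin n) := ⟨⟨0, hn⟩⟩
  have h1 : av (fun x : Fin n → V => (av (fun i => F (x i))) ^ 2)
      = av (fun i : Fin n => av (fun j : Fin n =>
          av (fun x : Fin n → V => F (x i) * F (x j)))) := by
    have e : ∀ x : Fin n → V, (av (fun i => F (x i))) ^ 2
        = av (fun i => av (fun j => F (x i) * F (x j))) := fun x => by rw [sq, av_mul_av]
    simp only [e]
    rw [av_comm]
    exact av_congr fun i => av_comm _
  rw [h1]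
  refine av_le fun i => ?_
  rw [← av_ind_eq i, ← av_mul_right, ← av_const (ι := Fin n) (av F ^ 2), ← av_add]
  refine av_le_av fun j => ?_
  by_cases hij : i = j
  · subst hij
    rw [ind_pos rfl, one_mul, av_congr (fun x : Fin n → V => (sq (F (x i))).symm),
      av_eval i (fun v => F v ^ 2)]
    nlinarith [sq_nonneg (av F)]
  · rw [ind_neg hij, av_eval2 i j hij]; nlinarith

lemma sm1 {n : ℕ} (hn : 0 < n) (w : V → ℝ) (m1 m0 : ℝ) (h0 : ∀ a, 0 ≤ w a)
    (h1 : ∀ a, w a ≤ m1) (h : av w ≤ m0) :
    av (fun x : Fin n → V => (av (fun i => w (x i))) ^ 2) ≤ (m1 / n + m0) * av w := by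
  refine (one_role hn w).trans ?_
  have h2 : av (fun v => w v ^ 2) ≤ m1 * av w := by
    rw [← av_mul_left]
    exact av_le_av fun v => by nlinarith [h0 v, h1 v]
  have h3 : 0 ≤ av w := av_nonneg h0
  have h4 : (0 : ℝ) ≤ 1 / n := by positivity
  have h5 := mul_le_mul_of_nonneg_left h2 h4
  have : (m1 / n + m0) * av w = 1 / n * (m1 * av w) + m0 * av w := by ring
  rw [this]
  nlinarith

lemma sm2 {n1 n2 : ℕ} (hn1 : 0 < n1) (hn2 : 0 < n2) (w : V → V → ℝ) (mab ma mb m0 : ℝ)
    (h0 : ∀ a b, 0 ≤ w a b) (hab : ∀ a b, w a b ≤ mab)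
    (ha : ∀ a, av (fun b => w a b) ≤ ma) (hb : ∀ b, av (fun a => w a b) ≤ mb)
    (h : av (fun a => av (fun b => w a b)) ≤ m0) :
    av (fun y : Fin n2 → V => av (fun x : Fin n1 → V =>
      (av (fun i => av (fun j => w (x i) (y j)))) ^ 2))
      ≤ ((mab / n2 + ma) / n1 + (mb / n2 + m0)) * av (fun a => av (fun b => w a b)) := by
  refine (av_le_av fun y : Fin n2 → V => one_role hn1 (fun a => av (fun j => w a (y j)))).trans ?_
  rw [av_add, av_mul_left, av_comm]
  have e1 : av (fun a => av (fun y : Fin n2 → V => (av (fun j => w a (y j))) ^ 2))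
      ≤ (mab / n2 + ma) * av (fun a => av (fun b => w a b)) := by
    rw [← av_mul_left]
    exact av_le_av fun a => sm1 hn2 (w a) mab ma (h0 a) (hab a) (ha a)
  have e2 : av (fun y : Fin n2 → V => (av (fun a => av (fun j => w a (y j)))) ^ 2)
      ≤ (mb / n2 + m0) * av (fun a => av (fun b => w a b)) := by
    have e3 : ∀ y : Fin n2 → V, av (fun a => av (fun j => w a (y j)))
        = av (fun j => av (fun a => w a (y j))) := fun y => av_comm _
    simp only [e3]
    rw [av_comm w]
    refine sm1 hn2 (fun b => av (fun a => w a b)) mb m0 (fun b => av_nonneg fun a => h0 a b) hb ?_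
    rw [← av_comm w]; exact h
  have h4 : (0 : ℝ) ≤ 1 / n1 := by positivity
  have h5 := mul_le_mul_of_nonneg_left e1 h4
  calc _ ≤ 1 / n1 * ((mab / n2 + ma) * av (fun a => av (fun b => w a b)))
        + (mb / n2 + m0) * av (fun a => av (fun b => w a b)) := add_le_add h5 e2
    _ = _ := by ring

omit [Nonempty V] in
lemma av_rot3 {α β γ : Type} [Fintype α] [Fintype β] [Fintype γ] (f : α → β → γ → ℝ) :
    av (fun a => av (fun b => av (fun c => f a b c)))
      = av (fun b => av (fun c => av (fun a => f a b c))) := by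
  rw [av_comm]
  exact av_congr fun b => av_comm _

omit [Nonempty V] in
lemma av_rot4 {α β γ δ : Type} [Fintype α] [Fintype β] [Fintype γ] [Fintype δ]
    (f : α → β → γ → δ → ℝ) :
    av (fun a => av (fun b => av (fun c => av (fun d => f a b c d))))
      = av (fun b => av (fun c => av (fun d => av (fun a => f a b c d)))) := by
  rw [av_comm]
  exact av_congr fun b => av_rot3 _

lemma sm3 {n1 n2 n3 : ℕ} (hn1 : 0 < n1) (hn2 : 0 < n2) (hn3 : 0 < n3) (w : V → V → V → ℝ)
    (mabc mab mac mbc ma mb mc m0 : ℝ)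
    (h0 : ∀ a b c, 0 ≤ w a b c) (habc : ∀ a b c, w a b c ≤ mabc)
    (hab : ∀ a b, av (fun c => w a b c) ≤ mab) (hac : ∀ a c, av (fun b => w a b c) ≤ mac)
    (hbc : ∀ b c, av (fun a => w a b c) ≤ mbc)
    (ha : ∀ a, av (fun b => av (fun c => w a b c)) ≤ ma)
    (hb : ∀ b, av (fun a => av (fun c => w a b c)) ≤ mb)
    (hc : ∀ c, av (fun a => av (fun b => w a b c)) ≤ mc)
    (h : av (fun a => av (fun b => av (fun c => w a b c))) ≤ m0) :
    av (fun z : Fin n3 → V => av (fun y : Fin n2 → V => av (fun x : Fin n1 → V =>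
      (av (fun i => av (fun j => av (fun k => w (x i) (y j) (z k))))) ^ 2)))
      ≤ (((mabc / n3 + mab) / n2 + (mac / n3 + ma)) / n1
          + ((mbc / n3 + mb) / n2 + (mc / n3 + m0)))
        * av (fun a => av (fun b => av (fun c => w a b c))) := by
  refine (av_le_av fun z : Fin n3 → V => av_le_av fun y : Fin n2 → V =>
    one_role hn1 (fun a => av (fun j => av (fun k => w a (y j) (z k))))).trans ?_
  simp only [av_add, av_mul_left]
  rw [← av_rot3]
  have e1 : av (fun a => av (fun z : Fin n3 → V => av (fun y : Fin n2 → V =>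
        (av (fun j => av (fun k => w a (y j) (z k)))) ^ 2)))
      ≤ ((mabc / n3 + mab) / n2 + (mac / n3 + ma))
        * av (fun a => av (fun b => av (fun c => w a b c))) := by
    rw [← av_mul_left]
    exact av_le_av fun a => sm2 hn2 hn3 (w a) mabc mab mac ma (h0 a) (habc a) (hab a)
      (hac a) (ha a)
  have e2 : av (fun z : Fin n3 → V => av (fun y : Fin n2 → V =>
        (av (fun a => av (fun j => av (fun k => w a (y j) (z k))))) ^ 2))
      ≤ ((mbc / n3 + mb) / n2 + (mc / n3 + m0))
        * av (fun a => av (fun b => av (fun c => w a b c))) := by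
    have e3 : ∀ (z : Fin n3 → V) (y : Fin n2 → V),
        av (fun a => av (fun j => av (fun k => w a (y j) (z k))))
        = av (fun j => av (fun k => av (fun a => w a (y j) (z k)))) := fun z y => av_rot3 _
    simp only [e3]
    rw [av_rot3 w]
    refine sm2 hn2 hn3 (fun b c => av (fun a => w a b c)) mbc mb mc m0
      (fun b c => av_nonneg fun a => h0 a b c) hbc (fun b => ?_) (fun c => ?_) ?_
    · rw [av_comm]; exact hb b
    · rw [av_comm]; exact hc c
    · rw [← av_rot3 w]; exact h
  have h4 : (0 : ℝ) ≤ 1 / n1 := by positivity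
  have h5 := mul_le_mul_of_nonneg_left e1 h4
  calc _ ≤ _ := add_le_add h5 e2
    _ = _ := by ring

lemma sm4 {n1 n2 n3 n4 : ℕ} (hn1 : 0 < n1) (hn2 : 0 < n2) (hn3 : 0 < n3) (hn4 : 0 < n4)
    (w : V → V → V → V → ℝ)
    (mabcd mabc mabd macd mbcd mab mac mad mbc mbd mcd ma mb mc md m0 : ℝ)
    (h0 : ∀ a b c d, 0 ≤ w a b c d) (habcd : ∀ a b c d, w a b c d ≤ mabcd)
    (habc : ∀ a b c, av (fun d => w a b c d) ≤ mabc)
    (habd : ∀ a b d, av (fun c => w a b c d) ≤ mabd)
    (hacd : ∀ a c d, av (fun b => w a b c d) ≤ macd)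
    (hbcd : ∀ b c d, av (fun a => w a b c d) ≤ mbcd)
    (hab : ∀ a b, av (fun c => av (fun d => w a b c d)) ≤ mab)
    (hac : ∀ a c, av (fun b => av (fun d => w a b c d)) ≤ mac)
    (had : ∀ a d, av (fun b => av (fun c => w a b c d)) ≤ mad)
    (hbc : ∀ b c, av (fun a => av (fun d => w a b c d)) ≤ mbc)
    (hbd : ∀ b d, av (fun a => av (fun c => w a b c d)) ≤ mbd)
    (hcd : ∀ c d, av (fun a => av (fun b => w a b c d)) ≤ mcd)
    (ha : ∀ a, av (fun b => av (fun c => av (fun d => w a b c d))) ≤ ma)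
    (hb : ∀ b, av (fun a => av (fun c => av (fun d => w a b c d))) ≤ mb)
    (hc : ∀ c, av (fun a => av (fun b => av (fun d => w a b c d))) ≤ mc)
    (hd : ∀ d, av (fun a => av (fun b => av (fun c => w a b c d))) ≤ md)
    (h : av (fun a => av (fun b => av (fun c => av (fun d => w a b c d)))) ≤ m0) :
    av (fun u : Fin n4 → V => av (fun z : Fin n3 → V => av (fun y : Fin n2 → V =>
      av (fun x : Fin n1 → V =>
      (av (fun i => av (fun j => av (fun k => av (fun l =>
        w (x i) (y j) (z k) (u l)))))) ^ 2))))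
      ≤ ((((mabcd / n4 + mabc) / n3 + (mabd / n4 + mab)) / n2
          + ((macd / n4 + mac) / n3 + (mad / n4 + ma))) / n1
        + (((mbcd / n4 + mbc) / n3 + (mbd / n4 + mb)) / n2
          + ((mcd / n4 + mc) / n3 + (md / n4 + m0))))
        * av (fun a => av (fun b => av (fun c => av (fun d => w a b c d)))) := by
  refine (av_le_av fun u : Fin n4 → V => av_le_av fun z : Fin n3 → V =>
    av_le_av fun y : Fin n2 → V =>
    one_role hn1 (fun a => av (fun j => av (fun k => av (fun l =>
      w a (y j) (z k) (u l)))))).trans ?_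
  simp only [av_add, av_mul_left]
  rw [← av_rot4]
  have e1 : av (fun a => av (fun u : Fin n4 → V => av (fun z : Fin n3 → V =>
        av (fun y : Fin n2 → V =>
        (av (fun j => av (fun k => av (fun l => w a (y j) (z k) (u l))))) ^ 2))))
      ≤ (((mabcd / n4 + mabc) / n3 + (mabd / n4 + mab)) / n2
          + ((macd / n4 + mac) / n3 + (mad / n4 + ma)))
        * av (fun a => av (fun b => av (fun c => av (fun d => w a b c d)))) := by
    rw [← av_mul_left]
    exact av_le_av fun a => sm3 hn2 hn3 hn4 (w a) mabcd mabc mabd macd mab mac mad ma (h0 a)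
      (habcd a) (habc a) (habd a) (hacd a) (hab a) (hac a) (had a) (ha a)
  have e2 : av (fun u : Fin n4 → V => av (fun z : Fin n3 → V => av (fun y : Fin n2 → V =>
        (av (fun a => av (fun j => av (fun k => av (fun l => w a (y j) (z k) (u l)))))) ^ 2)))
      ≤ (((mbcd / n4 + mbc) / n3 + (mbd / n4 + mb)) / n2
          + ((mcd / n4 + mc) / n3 + (md / n4 + m0)))
        * av (fun a => av (fun b => av (fun c => av (fun d => w a b c d)))) := by
    have e3 : ∀ (u : Fin n4 → V) (z : Fin n3 → V) (y : Fin n2 → V),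
        av (fun a => av (fun j => av (fun k => av (fun l => w a (y j) (z k) (u l)))))
        = av (fun j => av (fun k => av (fun l => av (fun a => w a (y j) (z k) (u l))))) :=
      fun u z y => av_rot4 _
    simp only [e3]
    rw [av_rot4 w]
    refine sm3 hn2 hn3 hn4 (fun b c d => av (fun a => w a b c d)) mbcd mbc mbd mcd mb mc md m0
      (fun b c d => av_nonneg fun a => h0 a b c d) hbcd (fun b c => ?_) (fun b d => ?_)
      (fun c d => ?_) (fun b => ?_) (fun c => ?_) (fun d => ?_) ?_
    · rw [av_comm]; exact hbc b c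
    · rw [av_comm]; exact hbd b d
    · rw [av_comm]; exact hcd c d
    · rw [← av_rot3]; exact hb b
    · rw [← av_rot3]; exact hc c
    · rw [← av_rot3]; exact hd d
    · rw [← av_rot4 w]; exact h
  have h4 : (0 : ℝ) ≤ 1 / n1 := by positivity
  have h5 := mul_le_mul_of_nonneg_left e1 h4
  calc _ ≤ _ := add_le_add h5 e2
    _ = _ := by ring

end Pool.Agent.Lib.MP_8d7d3d_lc
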